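import Pool.Agent.T9h20.TA.Glob

/-!
# The smoothed real tau-conjecture: the Rice inequalities for the pivots
-/

set_option autoImplicit false

open MeasureTheory Set
open scoped ENNReal NNReal

namespace Pool.Agent.T9h20.TA

section asm1

variable {k m t : ℕ}

/-- Closed part of the region of the pivot `i` with dominant coefficient `s`. -/
def KK [NeZero t] (c a : Fin k × Fin (m + 1) → Fin t → ℝ) (i : Fin k) (s : Fin t) :
    Set ((Fin k × Fin (m + 1) → Fin t → ℝ) × ℝ) :=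
  {p | (∀ l, |mx (c (l, 0)) (a (l, 0)) p.2 * PR c a p.1 l p.2| ≤
      |mx (c (i, 0)) (a (i, 0)) p.2 * PR c a p.1 i p.2|) ∧
    ∀ r, |mon (c (i, 0)) (a (i, 0)) r p.2| ≤ |mon (c (i, 0)) (a (i, 0)) s p.2|}

/-- Open part of the region. -/
def UU (c a : Fin k × Fin (m + 1) → Fin t → ℝ) (i : Fin k) (s : Fin t) :
    Set ((Fin k × Fin (m + 1) → Fin t → ℝ) × ℝ) :=
  {p | PR c a p.1 i p.2 ≠ 0 ∧
    ∀ r, r < s → |mon (c (i, 0)) (a (i, 0)) r p.2| < |mon (c (i, 0)) (a (i, 0)) s p.2|}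

theorem isClosed_KK [NeZero t] (c a : Fin k × Fin (m + 1) → Fin t → ℝ) (i : Fin k)
    (s : Fin t) : IsClosed (KK c a i s) := by
  have h1 : IsClosed {p : (Fin k × Fin (m + 1) → Fin t → ℝ) × ℝ |
      ∀ l, |mx (c (l, 0)) (a (l, 0)) p.2 * PR c a p.1 l p.2| ≤
      |mx (c (i, 0)) (a (i, 0)) p.2 * PR c a p.1 i p.2|} := by
    have : {p : (Fin k × Fin (m + 1) → Fin t → ℝ) × ℝ |
        ∀ l, |mx (c (l, 0)) (a (l, 0)) p.2 * PR c a p.1 l p.2| ≤
        |mx (c (i, 0)) (a (i, 0)) p.2 * PR c a p.1 i p.2|} =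
        ⋂ l, {p | |mx (c (l, 0)) (a (l, 0)) p.2 * PR c a p.1 l p.2| ≤
        |mx (c (i, 0)) (a (i, 0)) p.2 * PR c a p.1 i p.2|} := by
      ext p
      simp
    rw [this]
    exact isClosed_iInter fun l => isClosed_le
      (((continuous_mx _ _).comp continuous_snd).mul (continuous_PR₂ c a l)).abs
      (((continuous_mx _ _).comp continuous_snd).mul (continuous_PR₂ c a i)).abs
  have h2 : IsClosed {p : (Fin k × Fin (m + 1) → Fin t → ℝ) × ℝ |
      ∀ r, |mon (c (i, 0)) (a (i, 0)) r p.2| ≤ |mon (c (i, 0)) (a (i, 0)) s p.2|} := by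
    have : {p : (Fin k × Fin (m + 1) → Fin t → ℝ) × ℝ |
        ∀ r, |mon (c (i, 0)) (a (i, 0)) r p.2| ≤ |mon (c (i, 0)) (a (i, 0)) s p.2|} =
        ⋂ r, {p | |mon (c (i, 0)) (a (i, 0)) r p.2| ≤ |mon (c (i, 0)) (a (i, 0)) s p.2|} := by
      ext p
      simp
    rw [this]
    exact isClosed_iInter fun r => isClosed_le
      ((continuous_mon _ _ r).comp continuous_snd).abs
      ((continuous_mon _ _ s).comp continuous_snd).abs
  exact h1.inter h2

theorem isOpen_UU (c a : Fin k × Fin (m + 1) → Fin t → ℝ) (i : Fin k)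
    (s : Fin t) : IsOpen (UU c a i s) := by
  have h1 : IsOpen {p : (Fin k × Fin (m + 1) → Fin t → ℝ) × ℝ | PR c a p.1 i p.2 ≠ 0} :=
    isOpen_ne_fun (continuous_PR₂ c a i) continuous_const
  have h2 : IsOpen {p : (Fin k × Fin (m + 1) → Fin t → ℝ) × ℝ |
      ∀ r, r < s → |mon (c (i, 0)) (a (i, 0)) r p.2| < |mon (c (i, 0)) (a (i, 0)) s p.2|} := by
    have : {p : (Fin k × Fin (m + 1) → Fin t → ℝ) × ℝ |
        ∀ r, r < s → |mon (c (i, 0)) (a (i, 0)) r p.2| < |mon (c (i, 0)) (a (i, 0)) s p.2|} =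
        ⋂ r, {p | r < s → |mon (c (i, 0)) (a (i, 0)) r p.2| <
          |mon (c (i, 0)) (a (i, 0)) s p.2|} := by
      ext p
      simp
    rw [this]
    refine isOpen_iInter_of_finite fun r => ?_
    by_cases hr : r < s
    · simp only [hr, true_imp_iff]
      exact isOpen_lt ((continuous_mon _ _ r).comp continuous_snd).abs
        ((continuous_mon _ _ s).comp continuous_snd).abs
    · simp [hr]
  exact h1.inter h2

/-- The coefficient of the dominant coefficient. -/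
noncomputable def G1 (c a : Fin k × Fin (m + 1) → Fin t → ℝ) (i : Fin k) (s : Fin t)
    (v : Fin k × Fin (m + 1) → Fin t → ℝ) (y : ℝ) : ℝ :=
  mon (c (i, 0)) (a (i, 0)) s y * PR c a v i y

noncomputable def dG1 (c a : Fin k × Fin (m + 1) → Fin t → ℝ) (i : Fin k) (s : Fin t)
    (v : Fin k × Fin (m + 1) → Fin t → ℝ) (y : ℝ) : ℝ :=
  a (i, 0) s * mon (c (i, 0)) (a (i, 0)) s y * PR c a v i y +
    mon (c (i, 0)) (a (i, 0)) s y * dPR c a v i y

/-- The rest. -/
noncomputable def R1 (c a : Fin k × Fin (m + 1) → Fin t → ℝ) (i : Fin k) (s : Fin t)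
    (v : Fin k × Fin (m + 1) → Fin t → ℝ) (y : ℝ) : ℝ := FF c a (upd v (i, 0) s 0) y

noncomputable def dR1 (c a : Fin k × Fin (m + 1) → Fin t → ℝ) (i : Fin k) (s : Fin t)
    (v : Fin k × Fin (m + 1) → Fin t → ℝ) (y : ℝ) : ℝ := dFF c a (upd v (i, 0) s 0) y

noncomputable def D1 (c a : Fin k × Fin (m + 1) → Fin t → ℝ) (i : Fin k) (s : Fin t)
    (v : Fin k × Fin (m + 1) → Fin t → ℝ) (y : ℝ) : ℝ :=
  (-(dR1 c a i s v y) * G1 c a i s v y - -(R1 c a i s v y) * dG1 c a i s v y) /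
    (G1 c a i s v y) ^ 2

theorem hasDerivAt_G1 (c a : Fin k × Fin (m + 1) → Fin t → ℝ) (i : Fin k) (s : Fin t)
    (v : Fin k × Fin (m + 1) → Fin t → ℝ) (y : ℝ) :
    HasDerivAt (G1 c a i s v) (dG1 c a i s v y) y :=
  (hasDerivAt_mon _ _ s y).mul (hasDerivAt_PR c a v i y)

theorem hasDerivAt_R1 (c a : Fin k × Fin (m + 1) → Fin t → ℝ) (i : Fin k) (s : Fin t)
    (v : Fin k × Fin (m + 1) → Fin t → ℝ) (y : ℝ) :
    HasDerivAt (R1 c a i s v) (dR1 c a i s v y) y :=
  hasDerivAt_FF c a _ y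

theorem hasDerivAt_D1 (c a : Fin k × Fin (m + 1) → Fin t → ℝ) (i : Fin k) (s : Fin t)
    (v : Fin k × Fin (m + 1) → Fin t → ℝ) (y : ℝ) (h : G1 c a i s v y ≠ 0) :
    HasDerivAt (fun z => -(R1 c a i s v z) / G1 c a i s v z) (D1 c a i s v y) y :=
  (hasDerivAt_R1 c a i s v y).neg.div (hasDerivAt_G1 c a i s v y) h

theorem continuous_upd (b : Fin k × Fin (m + 1)) (s : Fin t) (x : ℝ) :
    Continuous fun v : Fin k × Fin (m + 1) → Fin t → ℝ => upd v b s x := by
  unfold upd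
  refine Continuous.update continuous_id b ?_
  exact Continuous.update (continuous_apply b) s continuous_const

theorem continuous_G1 (c a : Fin k × Fin (m + 1) → Fin t → ℝ) (i : Fin k) (s : Fin t) :
    Continuous (Function.uncurry (G1 c a i s)) :=
  ((continuous_mon _ _ s).comp continuous_snd).mul (continuous_PR₂ c a i)

theorem continuous_dG1 (c a : Fin k × Fin (m + 1) → Fin t → ℝ) (i : Fin k) (s : Fin t) :
    Continuous (Function.uncurry (dG1 c a i s)) :=
  ((((continuous_mon _ _ s).comp continuous_snd).const_mul _).mul (continuous_PR₂ c a i)).add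
    (((continuous_mon _ _ s).comp continuous_snd).mul (continuous_dPR₂ c a i))

theorem continuous_R1 (c a : Fin k × Fin (m + 1) → Fin t → ℝ) (i : Fin k) (s : Fin t) :
    Continuous (Function.uncurry (R1 c a i s)) :=
  (continuous_FF₂ c a).comp (((continuous_upd (i, 0) s 0).comp continuous_fst).prodMk
    continuous_snd)

theorem continuous_dR1 (c a : Fin k × Fin (m + 1) → Fin t → ℝ) (i : Fin k) (s : Fin t) :
    Continuous (Function.uncurry (dR1 c a i s)) :=
  (continuous_dFF₂ c a).comp (((continuous_upd (i, 0) s 0).comp continuous_fst).prodMk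
    continuous_snd)

theorem measurable_D1 (c a : Fin k × Fin (m + 1) → Fin t → ℝ) (i : Fin k) (s : Fin t) :
    Measurable (Function.uncurry (D1 c a i s)) := by
  have h1 := (continuous_G1 c a i s).measurable
  have h2 := (continuous_dG1 c a i s).measurable
  have h3 := (continuous_R1 c a i s).measurable
  have h4 := (continuous_dR1 c a i s).measurable
  exact (((h4.neg).mul h1).sub ((h3.neg).mul h2)).div (h1.pow_const 2)

theorem FF_split (c a : Fin k × Fin (m + 1) → Fin t → ℝ) (i : Fin k) (s : Fin t)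
    (v : Fin k × Fin (m + 1) → Fin t → ℝ) (y : ℝ) :
    v (i, 0) s * G1 c a i s v y + R1 c a i s v y = FF c a v y := by
  unfold G1 R1
  rw [FF_upd]
  ring

theorem G1_upd (c a : Fin k × Fin (m + 1) → Fin t → ℝ) (i : Fin k) (s : Fin t)
    (v : Fin k × Fin (m + 1) → Fin t → ℝ) (x : ℝ) :
    G1 c a i s (upd v (i, 0) s x) = G1 c a i s v := by
  funext y
  unfold G1
  rw [PR_upd]

theorem dG1_upd (c a : Fin k × Fin (m + 1) → Fin t → ℝ) (i : Fin k) (s : Fin t)
    (v : Fin k × Fin (m + 1) → Fin t → ℝ) (x : ℝ) :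
    dG1 c a i s (upd v (i, 0) s x) = dG1 c a i s v := by
  funext y
  unfold dG1
  rw [PR_upd, dPR_upd]

theorem R1_upd (c a : Fin k × Fin (m + 1) → Fin t → ℝ) (i : Fin k) (s : Fin t)
    (v : Fin k × Fin (m + 1) → Fin t → ℝ) (x : ℝ) :
    R1 c a i s (upd v (i, 0) s x) = R1 c a i s v := by
  funext y
  unfold R1
  rw [upd_upd]

theorem dR1_upd (c a : Fin k × Fin (m + 1) → Fin t → ℝ) (i : Fin k) (s : Fin t)
    (v : Fin k × Fin (m + 1) → Fin t → ℝ) (x : ℝ) :
    dR1 c a i s (upd v (i, 0) s x) = dR1 c a i s v := by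
  funext y
  unfold dR1
  rw [upd_upd]

theorem D1_upd (c a : Fin k × Fin (m + 1) → Fin t → ℝ) (i : Fin k) (s : Fin t)
    (v : Fin k × Fin (m + 1) → Fin t → ℝ) (x : ℝ) :
    D1 c a i s (upd v (i, 0) s x) = D1 c a i s v := by
  funext y
  unfold D1
  rw [G1_upd, dG1_upd, R1_upd, dR1_upd]

/-- Rice inequality for the pivot `i`, dominant coefficient `s`. -/
theorem rice1 (hR : SRice) [NeZero t] (c a : Fin k × Fin (m + 1) → Fin t → ℝ)
    (hc : ∀ b s, c b s ≠ 0) (μ : Fin k × Fin (m + 1) → Fin t → Measure ℝ)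
    [∀ b s, IsProbabilityMeasure (μ b s)] (B : ℝ≥0)
    (hB : ∀ b s, μ b s ≤ (B : ℝ≥0∞) • (volume : Measure ℝ)) (i : Fin k) (s : Fin t) :
    ∫⁻ v, (({y : ℝ | (v, y) ∈ KK c a i s ∧ (v, y) ∈ UU c a i s ∧ FF c a v y = 0}.encard :
        ℕ∞) : ℝ≥0∞) ∂(PP μ) ≤
      B * ∫⁻ y, ∫⁻ v, (KK c a i s ∩ UU c a i s).indicator (fun p => ‖D1 c a i s p.1 p.2‖ₑ)
        (v, y) ∂(PP μ) := by
  have h := hR (Fin k × Fin (m + 1)) t μ B (i, 0) s (hB _ _) (KK c a i s) (UU c a i s)
    (G1 c a i s) (R1 c a i s) (D1 c a i s) (isClosed_KK c a i s) (isOpen_UU c a i s)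
    (continuous_G1 c a i s) (continuous_R1 c a i s) (measurable_D1 c a i s)
    (fun v x y => by simp only [KK, Set.mem_setOf_eq, PR_upd])
    (fun v x y => by simp only [UU, Set.mem_setOf_eq, PR_upd])
    (G1_upd c a i s) (R1_upd c a i s) (D1_upd c a i s)
    (fun v y _ hU => by
      have hG : G1 c a i s v y ≠ 0 := mul_ne_zero (mon_ne (hc _ _) y) hU.1
      exact ⟨hG, hasDerivAt_D1 c a i s v y hG⟩)
  simp only [FF_split] at h
  exact h

/-! ### The zeros of one factor -/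

/-- Closed part of the region. -/
def K0 (c a : Fin k × Fin (m + 1) → Fin t → ℝ) (b : Fin k × Fin (m + 1)) (s : Fin t) :
    Set ((Fin k × Fin (m + 1) → Fin t → ℝ) × ℝ) :=
  {p | ∀ r, |mon (c b) (a b) r p.2| ≤ |mon (c b) (a b) s p.2|}

def U0 (c a : Fin k × Fin (m + 1) → Fin t → ℝ) (b : Fin k × Fin (m + 1)) (s : Fin t) :
    Set ((Fin k × Fin (m + 1) → Fin t → ℝ) × ℝ) :=
  {p | ∀ r, r < s → |mon (c b) (a b) r p.2| < |mon (c b) (a b) s p.2|}

theorem isClosed_K0 (c a : Fin k × Fin (m + 1) → Fin t → ℝ) (b : Fin k × Fin (m + 1))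
    (s : Fin t) : IsClosed (K0 c a b s) := by
  have : K0 c a b s =
      ⋂ r, {p | |mon (c b) (a b) r p.2| ≤ |mon (c b) (a b) s p.2|} := by
    ext p
    simp [K0]
  rw [this]
  exact isClosed_iInter fun r => isClosed_le
    ((continuous_mon _ _ r).comp continuous_snd).abs
    ((continuous_mon _ _ s).comp continuous_snd).abs

theorem isOpen_U0 (c a : Fin k × Fin (m + 1) → Fin t → ℝ) (b : Fin k × Fin (m + 1))
    (s : Fin t) : IsOpen (U0 c a b s) := by
  have : U0 c a b s =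
      ⋂ r, {p | r < s → |mon (c b) (a b) r p.2| < |mon (c b) (a b) s p.2|} := by
    ext p
    simp [U0]
  rw [this]
  refine isOpen_iInter_of_finite fun r => ?_
  by_cases hr : r < s
  · simp only [hr, true_imp_iff]
    exact isOpen_lt ((continuous_mon _ _ r).comp continuous_snd).abs
      ((continuous_mon _ _ s).comp continuous_snd).abs
  · simp [hr]

noncomputable def D0 (c a : Fin k × Fin (m + 1) → Fin t → ℝ) (b : Fin k × Fin (m + 1))
    (s : Fin t) (v : Fin k × Fin (m + 1) → Fin t → ℝ) (y : ℝ) : ℝ :=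
  (-(dfn (c b) (a b) (upd v b s 0 b) y) * mon (c b) (a b) s y -
    -(fn (c b) (a b) (upd v b s 0 b) y) * (a b s * mon (c b) (a b) s y)) /
    (mon (c b) (a b) s y) ^ 2

theorem measurable_D0 (c a : Fin k × Fin (m + 1) → Fin t → ℝ) (b : Fin k × Fin (m + 1))
    (s : Fin t) : Measurable (Function.uncurry (D0 c a b s)) := by
  have h1 : Measurable fun p : (Fin k × Fin (m + 1) → Fin t → ℝ) × ℝ =>
      mon (c b) (a b) s p.2 := ((continuous_mon _ _ s).comp continuous_snd).measurable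
  have h2 : Measurable fun p : (Fin k × Fin (m + 1) → Fin t → ℝ) × ℝ =>
      fn (c b) (a b) (upd p.1 b s 0 b) p.2 :=
    ((continuous_fn₂ c a b).comp (((continuous_upd b s 0).comp continuous_fst).prodMk
      continuous_snd)).measurable
  have h3 : Measurable fun p : (Fin k × Fin (m + 1) → Fin t → ℝ) × ℝ =>
      dfn (c b) (a b) (upd p.1 b s 0 b) p.2 :=
    ((continuous_dfn₂ c a b).comp (((continuous_upd b s 0).comp continuous_fst).prodMk
      continuous_snd)).measurable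
  exact (((h3.neg).mul h1).sub ((h2.neg).mul (h1.const_mul _))).div (h1.pow_const 2)

/-- Rice inequality for the zeros of the factor `b`. -/
theorem rice0 (hR : SRice) (c a : Fin k × Fin (m + 1) → Fin t → ℝ)
    (hc : ∀ b s, c b s ≠ 0) (μ : Fin k × Fin (m + 1) → Fin t → Measure ℝ)
    [∀ b s, IsProbabilityMeasure (μ b s)] (B : ℝ≥0)
    (hB : ∀ b s, μ b s ≤ (B : ℝ≥0∞) • (volume : Measure ℝ)) (b : Fin k × Fin (m + 1))
    (s : Fin t) :
    ∫⁻ v, (({y : ℝ | (v, y) ∈ K0 c a b s ∧ (v, y) ∈ U0 c a b s ∧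
        fn (c b) (a b) (v b) y = 0}.encard : ℕ∞) : ℝ≥0∞) ∂(PP μ) ≤
      B * ∫⁻ y, ∫⁻ v, (K0 c a b s ∩ U0 c a b s).indicator (fun p => ‖D0 c a b s p.1 p.2‖ₑ)
        (v, y) ∂(PP μ) := by
  have h := hR (Fin k × Fin (m + 1)) t μ B b s (hB _ _) (K0 c a b s) (U0 c a b s)
    (fun _ y => mon (c b) (a b) s y) (fun v y => fn (c b) (a b) (upd v b s 0 b) y)
    (D0 c a b s) (isClosed_K0 c a b s) (isOpen_U0 c a b s)
    ((continuous_mon _ _ s).comp continuous_snd)
    ((continuous_fn₂ c a b).comp (((continuous_upd b s 0).comp continuous_fst).prodMk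
      continuous_snd)) (measurable_D0 c a b s)
    (fun v x y => Iff.rfl) (fun v x y => Iff.rfl) (fun v x => rfl)
    (fun v x => by funext y; rw [upd_upd])
    (fun v x => by funext y; unfold D0; rw [upd_upd])
    (fun v y _ _ => ⟨mon_ne (hc _ _) y,
      (hasDerivAt_fn _ _ _ y).neg.div (hasDerivAt_mon _ _ s y) (mon_ne (hc _ _) y)⟩)
  have e : ∀ (v : Fin k × Fin (m + 1) → Fin t → ℝ) (y : ℝ),
      v b s * mon (c b) (a b) s y + fn (c b) (a b) (upd v b s 0 b) y =
        fn (c b) (a b) (v b) y := by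
    intro v y
    rw [upd_same, fn_update]
    ring
  simp only [e] at h
  exact h

end asm1

end Pool.Agent.T9h20.TA
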