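import Pool.Agent.T9h20.TA.Asm1

/-!
# The smoothed real tau-conjecture: the pointwise bound of the derivative
-/

set_option autoImplicit false

open MeasureTheory Set
open scoped ENNReal NNReal

namespace Pool.Agent.T9h20.TA

section asm2

variable {k m t : ℕ} [NeZero t]

/-- The normalised factor `b` at `y`. -/
noncomputable def rho (c a v : Fin k × Fin (m + 1) → Fin t → ℝ) (y : ℝ)
    (b : Fin k × Fin (m + 1)) : ℝ := ∑ s, v b s * gg (c b) (a b) s y

/-- The normalised fluctuation of the derivative. -/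
noncomputable def eta (c a v : Fin k × Fin (m + 1) → Fin t → ℝ) (y : ℝ)
    (b : Fin k × Fin (m + 1)) : ℝ := ∑ s, v b s * hh (c b) (a b) s y

/-- The other factors of the product `l`. -/
def blEmb (l : Fin k) : Fin m ↪ Fin k × Fin (m + 1) where
  toFun j := (l, j.succ)
  inj' := by
    intro j j' h
    have h2 : j.succ = j'.succ := (Prod.ext_iff.mp h).2
    exact Fin.succ_injective m h2

theorem blEmb_apply (l : Fin k) (j : Fin m) : blEmb l j = (l, j.succ) := rfl

/-- The other factors of the product `l`. -/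
def Bl (k m : ℕ) (l : Fin k) : Finset (Fin k × Fin (m + 1)) := Finset.univ.map (blEmb l)

/-- Quotient of the sizes of the products `l` and `i`. -/
noncomputable def zz (c a : Fin k × Fin (m + 1) → Fin t → ℝ) (l i : Fin k) (y : ℝ) : ℝ :=
  (∏ j : Fin (m + 1), mx (c (l, j)) (a (l, j)) y) / ∏ j : Fin (m + 1), mx (c (i, j)) (a (i, j)) y

/-- Difference of the slopes. -/
noncomputable def lam (c a : Fin k × Fin (m + 1) → Fin t → ℝ) (l i : Fin k) (y : ℝ) : ℝ :=
  ∑ j : Fin (m + 1), ta (c (l, j)) (a (l, j)) y - ∑ j : Fin (m + 1), ta (c (i, j)) (a (i, j)) y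

/-- The normalised quotient. -/
noncomputable def ZZ (c a v : Fin k × Fin (m + 1) → Fin t → ℝ) (l i : Fin k) (y : ℝ) : ℝ :=
  zz c a l i y * (∏ b ∈ Bl k m l, rho c a v y b) / (∏ b ∈ Bl k m i, rho c a v y b)

/-- The integrand of the piece (H). -/
noncomputable def II (c a v : Fin k × Fin (m + 1) → Fin t → ℝ) (l i : Fin k) (y : ℝ) : ℝ :=
  ZZ c a v l i y * rho c a v y (l, 0) *
    (lam c a l i y + eta c a v y (l, 0) / rho c a v y (l, 0) +
      ∑ b ∈ Bl k m l, eta c a v y b / rho c a v y b -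
      ∑ b ∈ Bl k m i, eta c a v y b / rho c a v y b)

theorem fn_rho {c a : Fin k × Fin (m + 1) → Fin t → ℝ} (hc : ∀ b s, c b s ≠ 0)
    (v : Fin k × Fin (m + 1) → Fin t → ℝ) (y : ℝ) (b : Fin k × Fin (m + 1)) :
    fn (c b) (a b) (v b) y = mx (c b) (a b) y * rho c a v y b :=
  fn_eq (hc b) (v b) y

theorem PR_rho {c a : Fin k × Fin (m + 1) → Fin t → ℝ} (hc : ∀ b s, c b s ≠ 0)
    (v : Fin k × Fin (m + 1) → Fin t → ℝ) (y : ℝ) (l : Fin k) :
    PR c a v l y = (∏ j : Fin m, mx (c (l, j.succ)) (a (l, j.succ)) y) *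
      ∏ b ∈ Bl k m l, rho c a v y b := by
  unfold PR Bl
  rw [Finset.prod_map, ← Finset.prod_mul_distrib]
  exact Finset.prod_congr rfl fun j _ => fn_rho hc v y _

theorem mxPR {c a : Fin k × Fin (m + 1) → Fin t → ℝ} (hc : ∀ b s, c b s ≠ 0)
    (v : Fin k × Fin (m + 1) → Fin t → ℝ) (y : ℝ) (l : Fin k) :
    mx (c (l, 0)) (a (l, 0)) y * PR c a v l y =
      (∏ j : Fin (m + 1), mx (c (l, j)) (a (l, j)) y) * ∏ b ∈ Bl k m l, rho c a v y b := by
  rw [PR_rho hc, Fin.prod_univ_succ, mul_assoc]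

theorem prod_mx_pos {c a : Fin k × Fin (m + 1) → Fin t → ℝ} (hc : ∀ b s, c b s ≠ 0)
    (y : ℝ) (l : Fin k) : 0 < ∏ j : Fin (m + 1), mx (c (l, j)) (a (l, j)) y :=
  Finset.prod_pos fun j _ => mx_pos (hc _) y

theorem ZZ_eq {c a : Fin k × Fin (m + 1) → Fin t → ℝ} (hc : ∀ b s, c b s ≠ 0)
    (v : Fin k × Fin (m + 1) → Fin t → ℝ) (y : ℝ) (l i : Fin k) :
    ZZ c a v l i y = (mx (c (l, 0)) (a (l, 0)) y * PR c a v l y) /
      (mx (c (i, 0)) (a (i, 0)) y * PR c a v i y) := by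
  unfold ZZ zz
  rw [mxPR hc, mxPR hc, div_mul_eq_mul_div, div_div]

theorem abs_ZZ_le {c a : Fin k × Fin (m + 1) → Fin t → ℝ} (hc : ∀ b s, c b s ≠ 0)
    {v : Fin k × Fin (m + 1) → Fin t → ℝ} {y : ℝ} {i : Fin k} {s : Fin t}
    (hK : (v, y) ∈ KK c a i s) (l : Fin k) : |ZZ c a v l i y| ≤ 1 := by
  rw [ZZ_eq hc, abs_div]
  exact div_le_one_of_le₀ (hK.1 l) (abs_nonneg _)

theorem sel_of_mem {c a : Fin k × Fin (m + 1) → Fin t → ℝ}
    {v : Fin k × Fin (m + 1) → Fin t → ℝ} {y : ℝ} {i : Fin k} {s : Fin t}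
    (hK : (v, y) ∈ KK c a i s) (hU : (v, y) ∈ UU c a i s) :
    sel (c (i, 0)) (a (i, 0)) y = s :=
  sel_unique ⟨hK.2, hU.2⟩

/-- The derivative of the term `l = i`. -/
theorem deriv_own {c a : Fin t → ℝ} (hc : ∀ s, c s ≠ 0) (v : Fin t → ℝ) (y : ℝ) (s : Fin t)
    (hs : sel c a y = s) :
    ‖(dfn c a (Function.update v s 0) y * mon c a s y -
      fn c a (Function.update v s 0) y * (a s * mon c a s y)) / (mon c a s y) ^ 2‖ₑ =
      ‖∑ r, v r * hh c a r y‖ₑ := by
  have h1 : dfn c a (Function.update v s 0) y * mon c a s y -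
      fn c a (Function.update v s 0) y * (a s * mon c a s y) =
      mon c a s y * (mx c a y * ∑ r, v r * hh c a r y) := by
    rw [dfn_update, fn_update, dfn_eq hc]
    unfold ta
    rw [hs]
    ring
  have h2 : |mon c a s y| = mx c a y := by
    unfold mx
    rw [hs]
  have h3 := mon_ne (a := a) (hc s) y
  have h4 := (mx_pos (a := a) hc y).ne'
  rw [h1, pow_two, mul_div_mul_left _ _ h3]
  have h5 : |mx c a y * (∑ r, v r * hh c a r y) / mon c a s y| =
      |∑ r, v r * hh c a r y| := by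
    rw [abs_div, abs_mul, h2, abs_of_pos (mx_pos hc y), mul_div_assoc, mul_div_cancel₀]
    exact h4
  rw [← Real.enorm_abs, h5, Real.enorm_abs]

/-- The main pointwise inequality. -/
theorem D1_le (hL : SLogD) {c a : Fin k × Fin (m + 1) → Fin t → ℝ} (hc : ∀ b s, c b s ≠ 0)
    {v : Fin k × Fin (m + 1) → Fin t → ℝ} {y : ℝ} {i : Fin k} {s : Fin t}
    (hK : (v, y) ∈ KK c a i s) (hU : (v, y) ∈ UU c a i s)
    (hn : ∀ b, fn (c b) (a b) (v b) y ≠ 0) :
    ‖D1 c a i s v y‖ₑ ≤ ‖eta c a v y (i, 0)‖ₑ + ∑ l ∈ Finset.univ.erase i, ‖II c a v l i y‖ₑ := by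
  have hs := sel_of_mem hK hU
  have hms := mon_ne (a := a (i, 0)) (hc (i, 0) s) y
  have hG : G1 c a i s v y ≠ 0 := mul_ne_zero hms hU.1
  have hD := hasDerivAt_D1 c a i s v y hG
  -- the alternative expression
  set w : ℝ → ℝ := mon (c (i, 0)) (a (i, 0)) s with hw
  set q : Fin k → ℝ → ℝ := fun l z => fn (c (l, 0)) (a (l, 0)) (v (l, 0)) z * PR c a v l z /
    (w z * PR c a v i z) with hq
  set f0 : ℝ → ℝ := fn (c (i, 0)) (a (i, 0)) (Function.update (v (i, 0)) s 0) with hf0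
  have hq' : ∀ l, HasDerivAt (q l) (q l y * (dfn (c (l, 0)) (a (l, 0)) (v (l, 0)) y /
      fn (c (l, 0)) (a (l, 0)) (v (l, 0)) y +
      ∑ j : Fin m, dfn (c (l, j.succ)) (a (l, j.succ)) (v (l, j.succ)) y /
        fn (c (l, j.succ)) (a (l, j.succ)) (v (l, j.succ)) y -
      (a (i, 0) s * w y) / w y -
      ∑ j : Fin m, dfn (c (i, j.succ)) (a (i, j.succ)) (v (i, j.succ)) y /
        fn (c (i, j.succ)) (a (i, j.succ)) (v (i, j.succ)) y)) y := by
    intro l
    exact hL m (fun j => fn (c (l, j.succ)) (a (l, j.succ)) (v (l, j.succ)))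
      (fun j => fn (c (i, j.succ)) (a (i, j.succ)) (v (i, j.succ)))
      (fun j => dfn (c (l, j.succ)) (a (l, j.succ)) (v (l, j.succ)) y)
      (fun j => dfn (c (i, j.succ)) (a (i, j.succ)) (v (i, j.succ)) y)
      (fn (c (l, 0)) (a (l, 0)) (v (l, 0))) w (dfn (c (l, 0)) (a (l, 0)) (v (l, 0)) y)
      (a (i, 0) s * w y) y (fun j => hasDerivAt_fn _ _ _ y) (fun j => hasDerivAt_fn _ _ _ y)
      (hasDerivAt_fn _ _ _ y) (hasDerivAt_mon _ _ s y) (fun j => hn _) (fun j => hn _) (hn _) hms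
  have hf' : HasDerivAt (fun z => f0 z / w z)
      ((dfn (c (i, 0)) (a (i, 0)) (Function.update (v (i, 0)) s 0) y * w y -
        f0 y * (a (i, 0) s * w y)) / w y ^ 2) y :=
    (hasDerivAt_fn _ _ _ y).div (hasDerivAt_mon _ _ s y) hms
  have halt := (hf'.add (HasDerivAt.fun_sum (u := Finset.univ.erase i)
    fun l _ => hq' l)).neg
  have heq : (fun z => -(R1 c a i s v z) / G1 c a i s v z) =ᶠ[nhds y]
      -((fun z => f0 z / w z) + fun z => ∑ l ∈ Finset.univ.erase i, q l z) := by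
    have hev : ∀ᶠ z in nhds y, PR c a v i z ≠ 0 :=
      (hasDerivAt_PR c a v i y).continuousAt.eventually_ne hU.1
    filter_upwards [hev] with z hz
    have hwz : w z ≠ 0 := mon_ne (hc (i, 0) s) z
    have h1 : R1 c a i s v z = f0 z * PR c a v i z +
        ∑ l ∈ Finset.univ.erase i, fn (c (l, 0)) (a (l, 0)) (v (l, 0)) z * PR c a v l z := by
      unfold R1
      rw [FF_eq, ← Finset.add_sum_erase _ _ (Finset.mem_univ i), PR_upd, upd_same]
      congr 1
      refine Finset.sum_congr rfl fun l hl => ?_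
      have hne : ((l, 0) : Fin k × Fin (m + 1)) ≠ (i, 0) := by
        intro h
        exact Finset.ne_of_mem_erase hl (Prod.ext_iff.mp h).1
      rw [upd_ne hne, PR_upd]
    have h2 : G1 c a i s v z = w z * PR c a v i z := rfl
    rw [h1, h2]
    simp only [Pi.neg_apply, Pi.add_apply, hq]
    rw [neg_div, add_div, mul_div_mul_right _ _ hz, Finset.sum_div]
  have hun := hD.unique (halt.congr_of_eventuallyEq heq)
  rw [hun, enorm_neg]
  refine (enorm_add_le _ _).trans ?_
  refine add_le_add ?_ ?_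
  · exact (deriv_own (hc (i, 0)) (v (i, 0)) y s hs).le
  · refine (enorm_sum_le _ _).trans (Finset.sum_le_sum fun l _ => ?_)
    -- compare with `II`
    have hta : a (i, 0) s * w y / w y = ta (c (i, 0)) (a (i, 0)) y := by
      rw [mul_div_assoc, div_self hms, mul_one]
      unfold ta
      rw [hs]
    have hdiv : ∀ b, dfn (c b) (a b) (v b) y / fn (c b) (a b) (v b) y =
        ta (c b) (a b) y + eta c a v y b / rho c a v y b := fun b => dfn_div (hc b) (hn b)
    have hbr : dfn (c (l, 0)) (a (l, 0)) (v (l, 0)) y / fn (c (l, 0)) (a (l, 0)) (v (l, 0)) y +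
        ∑ j : Fin m, dfn (c (l, j.succ)) (a (l, j.succ)) (v (l, j.succ)) y /
          fn (c (l, j.succ)) (a (l, j.succ)) (v (l, j.succ)) y -
        (a (i, 0) s * w y) / w y -
        ∑ j : Fin m, dfn (c (i, j.succ)) (a (i, j.succ)) (v (i, j.succ)) y /
          fn (c (i, j.succ)) (a (i, j.succ)) (v (i, j.succ)) y =
        lam c a l i y + eta c a v y (l, 0) / rho c a v y (l, 0) +
          ∑ b ∈ Bl k m l, eta c a v y b / rho c a v y b -
          ∑ b ∈ Bl k m i, eta c a v y b / rho c a v y b := by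
      simp only [hdiv, hta]
      unfold lam Bl
      rw [Finset.sum_map, Finset.sum_map, Finset.sum_add_distrib, Finset.sum_add_distrib,
        Fin.sum_univ_succ, Fin.sum_univ_succ (fun j => ta (c (i, j)) (a (i, j)) y)]
      simp only [blEmb_apply]
      ring
    rw [hbr]
    unfold II
    have hqy : |q l y| = |ZZ c a v l i y * rho c a v y (l, 0)| := by
      have hwy : |w y| = mx (c (i, 0)) (a (i, 0)) y := by
        unfold mx
        rw [hs]
      have hmi : |mx (c (i, 0)) (a (i, 0)) y| = mx (c (i, 0)) (a (i, 0)) y :=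
        abs_of_pos (mx_pos (hc (i, 0)) y)
      have e1 : |q l y| = |mx (c (l, 0)) (a (l, 0)) y * rho c a v y (l, 0)| * |PR c a v l y| /
          (mx (c (i, 0)) (a (i, 0)) y * |PR c a v i y|) := by
        have : q l y = fn (c (l, 0)) (a (l, 0)) (v (l, 0)) y * PR c a v l y /
          (w y * PR c a v i y) := rfl
        rw [this, fn_rho hc, abs_div, abs_mul (w y), hwy, abs_mul]
      have e2 : |ZZ c a v l i y * rho c a v y (l, 0)| =
          |mx (c (l, 0)) (a (l, 0)) y| * |PR c a v l y| /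
          (mx (c (i, 0)) (a (i, 0)) y * |PR c a v i y|) * |rho c a v y (l, 0)| := by
        rw [ZZ_eq hc, abs_mul, abs_div, abs_mul, abs_mul (mx (c (i, 0)) (a (i, 0)) y), hmi]
      rw [e1, e2, abs_mul]
      ring
    rw [enorm_mul, enorm_mul]
    gcongr
    rw [← Real.enorm_abs, hqy, Real.enorm_abs]

/-- The derivative in the case of one factor. -/
theorem D0_eq {c a : Fin k × Fin (m + 1) → Fin t → ℝ} (hc : ∀ b s, c b s ≠ 0)
    {v : Fin k × Fin (m + 1) → Fin t → ℝ} {y : ℝ} {b : Fin k × Fin (m + 1)} {s : Fin t}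
    (hK : (v, y) ∈ K0 c a b s) (hU : (v, y) ∈ U0 c a b s) :
    ‖D0 c a b s v y‖ₑ = ‖eta c a v y b‖ₑ := by
  have hs : sel (c b) (a b) y = s := sel_unique ⟨hK, hU⟩
  have h := deriv_own (hc b) (v b) y s hs
  unfold D0
  rw [upd_same]
  rw [show (-(dfn (c b) (a b) (Function.update (v b) s 0) y) * mon (c b) (a b) s y -
    -(fn (c b) (a b) (Function.update (v b) s 0) y) * (a b s * mon (c b) (a b) s y)) /
    (mon (c b) (a b) s y) ^ 2 = -((dfn (c b) (a b) (Function.update (v b) s 0) y *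
    mon (c b) (a b) s y - fn (c b) (a b) (Function.update (v b) s 0) y *
    (a b s * mon (c b) (a b) s y)) / (mon (c b) (a b) s y) ^ 2) by ring, enorm_neg]
  exact h

end asm2

end Pool.Agent.T9h20.TA
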