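import Pool.Agent.T9h20.TA.Asm2

/-!
# The smoothed real tau-conjecture: the expectation for fixed `y`
-/

set_option autoImplicit false

open MeasureTheory Set
open scoped ENNReal NNReal

namespace Pool.Agent.T9h20.TA

section asm3

variable {k m t : ℕ} [NeZero t]

instance isProb_PP {β : Type} [Fintype β] {t : ℕ} (μ : β → Fin t → Measure ℝ)
    [∀ b s, IsProbabilityMeasure (μ b s)] : IsProbabilityMeasure (PP μ) := by
  unfold PP
  infer_instance

theorem ae_block (hM : SMom) {c a : Fin t → ℝ} (hc : ∀ s, c s ≠ 0) (μ : Fin t → Measure ℝ)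
    [∀ s, IsProbabilityMeasure (μ s)] (A B : ℝ≥0)
    (hB : ∀ s, μ s ≤ (B : ℝ≥0∞) • (volume : Measure ℝ)) (hA : ∀ s, ∫⁻ x, ‖x‖ₑ ∂(μ s) ≤ A)
    (y : ℝ) : ∀ᵐ v ∂(Measure.pi μ), fn c a v y ≠ 0 := by
  have h := (hM t μ A B hB hA (fun s => gg c a s y) (sel c a y) (abs_gg_sel hc y)
    (fun s => abs_gg_le hc s y)).2.2 (1 / 2) (by norm_num) le_rfl
  have hfin : ∫⁻ v, ‖∑ s, v s * gg c a s y‖ₑ ^ (-(1 / 2 : ℝ)) ∂(Measure.pi μ) ≠ ∞ := by
    refine ne_top_of_le_ne_top ?_ h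
    refine ENNReal.rpow_ne_top_of_nonneg (by norm_num) ?_
    exact ENNReal.add_ne_top.mpr ⟨ENNReal.one_ne_top, ENNReal.mul_ne_top (by simp) (by simp)⟩
  have hmeas : Measurable fun v : Fin t → ℝ =>
      ‖∑ s, v s * gg c a s y‖ₑ ^ (-(1 / 2 : ℝ)) := by
    fun_prop
  filter_upwards [ae_lt_top hmeas hfin] with v hv h0
  rw [fn_eq hc] at h0
  have h1 : ∑ s, v s * gg c a s y = 0 :=
    (mul_eq_zero.mp h0).resolve_left (mx_pos hc y).ne'
  rw [h1, enorm_zero, ENNReal.zero_rpow_of_neg (by norm_num)] at hv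
  exact lt_irrefl _ hv

theorem ae_ne (hM : SMom) {c a : Fin k × Fin (m + 1) → Fin t → ℝ} (hc : ∀ b s, c b s ≠ 0)
    (μ : Fin k × Fin (m + 1) → Fin t → Measure ℝ)
    [∀ b s, IsProbabilityMeasure (μ b s)] (A B : ℝ≥0)
    (hB : ∀ b s, μ b s ≤ (B : ℝ≥0∞) • (volume : Measure ℝ))
    (hA : ∀ b s, ∫⁻ x, ‖x‖ₑ ∂(μ b s) ≤ A) (y : ℝ) :
    ∀ᵐ v ∂(PP μ), ∀ b, fn (c b) (a b) (v b) y ≠ 0 := by
  rw [ae_all_iff]
  intro b
  have h := ae_block hM (hc b) (μ b) A B (hB b) (hA b) (a := a b) y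
  exact (Measure.quasiMeasurePreserving_eval (μ := fun b => Measure.pi (μ b)) b).ae h

theorem measurable_rho (c a : Fin k × Fin (m + 1) → Fin t → ℝ) (y : ℝ)
    (b : Fin k × Fin (m + 1)) : Measurable fun v => rho c a v y b := by
  unfold rho
  fun_prop

theorem measurable_eta (c a : Fin k × Fin (m + 1) → Fin t → ℝ) (y : ℝ)
    (b : Fin k × Fin (m + 1)) : Measurable fun v => eta c a v y b := by
  unfold eta
  fun_prop

theorem measurable_ZZ (c a : Fin k × Fin (m + 1) → Fin t → ℝ) (l i : Fin k) (y : ℝ) :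
    Measurable fun v => ZZ c a v l i y := by
  unfold ZZ
  exact ((Finset.measurable_fun_prod _ fun b _ => measurable_rho c a y b).const_mul _).div
    (Finset.measurable_fun_prod _ fun b _ => measurable_rho c a y b)

theorem measurable_II (c a : Fin k × Fin (m + 1) → Fin t → ℝ) (l i : Fin k) (y : ℝ) :
    Measurable fun v => II c a v l i y := by
  unfold II
  refine ((measurable_ZZ c a l i y).mul (measurable_rho c a y _)).mul ?_
  refine Measurable.sub (Measurable.add (Measurable.add measurable_const ?_) ?_) ?_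
  · exact (measurable_eta c a y _).div (measurable_rho c a y _)
  · exact Finset.measurable_fun_sum _ fun b _ => (measurable_eta c a y b).div (measurable_rho c a y b)
  · exact Finset.measurable_fun_sum _ fun b _ => (measurable_eta c a y b).div (measurable_rho c a y b)

theorem lintegral_eta {c a : Fin k × Fin (m + 1) → Fin t → ℝ}
    (μ : Fin k × Fin (m + 1) → Fin t → Measure ℝ)
    [∀ b s, IsProbabilityMeasure (μ b s)] (A : ℝ≥0)
    (hA : ∀ b s, ∫⁻ x, ‖x‖ₑ ∂(μ b s) ≤ A) (b : Fin k × Fin (m + 1)) (y : ℝ) :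
    ∫⁻ v, ‖eta c a v y b‖ₑ ∂(PP μ) ≤ A * kap (c b) (a b) y := by
  have h := (measurePreserving_eval (fun b => Measure.pi (μ b)) b).lintegral_comp
    (f := fun w : Fin t → ℝ => ‖∑ s, w s * hh (c b) (a b) s y‖ₑ) (by fun_prop)
  exact h.trans_le (lintegral_lin (μ b) A (hA b) _)

theorem card_Bl (l : Fin k) : (Bl k m l).card = m := by
  unfold Bl
  simp

theorem mem_Bl {l : Fin k} {b : Fin k × Fin (m + 1)} (h : b ∈ Bl k m l) :
    b.1 = l ∧ b.2 ≠ 0 := by
  unfold Bl at h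
  obtain ⟨j, -, rfl⟩ := Finset.mem_map.mp h
  exact ⟨rfl, Fin.succ_ne_zero j⟩

/-- The exponent. -/
noncomputable def th (m : ℕ) : ℝ := 1 / (2 * (m + 1))

theorem th_pos (m : ℕ) : 0 < th m := by
  unfold th
  positivity

theorem th_le (m : ℕ) : th m ≤ 1 / 2 := by
  unfold th
  have : (0 : ℝ) ≤ m := Nat.cast_nonneg m
  rw [div_le_div_iff₀ (by positivity) (by norm_num)]
  linarith

theorem th_mul_le (m : ℕ) : th m * m ≤ 1 / 2 := by
  unfold th
  have : (0 : ℝ) ≤ m := Nat.cast_nonneg m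
  rw [div_mul_eq_mul_div, div_le_div_iff₀ (by positivity) (by norm_num)]
  linarith

/-- The bound of the piece (H) for the pair `(l, i)`. -/
noncomputable def bd (c a : Fin k × Fin (m + 1) → Fin t → ℝ) (A B : ℝ≥0) (l i : Fin k)
    (y : ℝ) : ℝ≥0∞ :=
  A * kap (c (l, 0)) (a (l, 0)) y +
    t * A * (ENNReal.ofReal (|lam c a l i y| * Real.exp (-(th m * |Real.log (zz c a l i y)|))) *
      ((1 + t * A) * (1 + 4 * B)) +
      2 * A * B * (∑ b ∈ Bl k m l, kap (c b) (a b) y + ∑ b ∈ Bl k m i, kap (c b) (a b) y))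

theorem fixed (hH : SFix) {c a : Fin k × Fin (m + 1) → Fin t → ℝ} (hc : ∀ b s, c b s ≠ 0)
    (μ : Fin k × Fin (m + 1) → Fin t → Measure ℝ)
    [∀ b s, IsProbabilityMeasure (μ b s)] (A B : ℝ≥0)
    (hB : ∀ b s, μ b s ≤ (B : ℝ≥0∞) • (volume : Measure ℝ))
    (hA : ∀ b s, ∫⁻ x, ‖x‖ₑ ∂(μ b s) ≤ A) (y : ℝ) (l i : Fin k) (hli : l ≠ i) :
    ∫⁻ v, {v | |ZZ c a v l i y| ≤ 1}.indicator (fun v => ‖II c a v l i y‖ₑ) v ∂(PP μ) ≤
      bd c a A B l i y := by
  have h := hH (Fin k × Fin (m + 1)) t μ A B hB hA (fun b s => gg (c b) (a b) s y)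
    (fun b s => hh (c b) (a b) s y) (fun b => sel (c b) (a b) y)
    (fun b => abs_gg_sel (hc b) y) (fun b => hh_sel (c b) (a b) y)
    (fun b s => abs_gg_le (hc b) s y) (l, 0) (Bl k m l) (Bl k m i)
    (fun hm => (mem_Bl hm).2 rfl) (fun hm => (mem_Bl hm).2 rfl)
    (by
      rw [Finset.disjoint_left]
      intro b h1 h2
      exact hli ((mem_Bl h1).1.symm.trans (mem_Bl h2).1))
    (zz c a l i y) (lam c a l i y) (th m)
    (div_pos (prod_mx_pos hc y l) (prod_mx_pos hc y i)) (th_pos m).le (th_le m)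
    (by rw [card_Bl]; exact th_mul_le m) (by rw [card_Bl]; exact th_mul_le m)
  exact h

/-- The expectation for fixed `y`, pivot `i`. -/
theorem fix1 (hH : SFix) (hL : SLogD) (hM : SMom)
    {c a : Fin k × Fin (m + 1) → Fin t → ℝ} (hc : ∀ b s, c b s ≠ 0)
    (μ : Fin k × Fin (m + 1) → Fin t → Measure ℝ)
    [∀ b s, IsProbabilityMeasure (μ b s)] (A B : ℝ≥0)
    (hB : ∀ b s, μ b s ≤ (B : ℝ≥0∞) • (volume : Measure ℝ))
    (hA : ∀ b s, ∫⁻ x, ‖x‖ₑ ∂(μ b s) ≤ A) (y : ℝ) (i : Fin k) :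
    ∑ s, ∫⁻ v, (KK c a i s ∩ UU c a i s).indicator (fun p => ‖D1 c a i s p.1 p.2‖ₑ)
        (v, y) ∂(PP μ) ≤
      A * kap (c (i, 0)) (a (i, 0)) y + ∑ l ∈ Finset.univ.erase i, bd c a A B l i y := by
  classical
  set s0 := sel (c (i, 0)) (a (i, 0)) y with hs0
  have h1 : ∑ s, ∫⁻ v, (KK c a i s ∩ UU c a i s).indicator (fun p => ‖D1 c a i s p.1 p.2‖ₑ)
        (v, y) ∂(PP μ) = ∫⁻ v, (KK c a i s0 ∩ UU c a i s0).indicator
          (fun p => ‖D1 c a i s0 p.1 p.2‖ₑ) (v, y) ∂(PP μ) := by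
    refine Finset.sum_eq_single s0 (fun s _ hs => ?_) (fun h => absurd (Finset.mem_univ _) h)
    have : ∀ v : Fin k × Fin (m + 1) → Fin t → ℝ, (KK c a i s ∩ UU c a i s).indicator
        (fun p => ‖D1 c a i s p.1 p.2‖ₑ) (v, y) = 0 := by
      intro v
      refine Set.indicator_of_notMem (fun hmem => hs ?_) _
      exact (sel_of_mem hmem.1 hmem.2).symm
    simp only [this, lintegral_zero]
  rw [h1]
  calc ∫⁻ v, (KK c a i s0 ∩ UU c a i s0).indicator
          (fun p => ‖D1 c a i s0 p.1 p.2‖ₑ) (v, y) ∂(PP μ)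
      ≤ ∫⁻ v, (‖eta c a v y (i, 0)‖ₑ + ∑ l ∈ Finset.univ.erase i,
          {v | |ZZ c a v l i y| ≤ 1}.indicator (fun v => ‖II c a v l i y‖ₑ) v) ∂(PP μ) := by
        refine lintegral_mono_ae ?_
        filter_upwards [ae_ne hM hc μ A B hB hA y (a := a)] with v hv
        by_cases hmem : (v, y) ∈ KK c a i s0 ∩ UU c a i s0
        · rw [Set.indicator_of_mem hmem]
          refine (D1_le hL hc hmem.1 hmem.2 hv).trans ?_
          refine add_le_add le_rfl (Finset.sum_le_sum fun l _ => ?_)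
          rw [Set.indicator_of_mem]
          exact abs_ZZ_le hc hmem.1 l
        · rw [Set.indicator_of_notMem hmem]
          exact zero_le
    _ = ∫⁻ v, ‖eta c a v y (i, 0)‖ₑ ∂(PP μ) + ∑ l ∈ Finset.univ.erase i,
          ∫⁻ v, {v | |ZZ c a v l i y| ≤ 1}.indicator (fun v => ‖II c a v l i y‖ₑ) v ∂(PP μ) := by
        rw [lintegral_add_left (measurable_eta c a y _).enorm, lintegral_finsetSum]
        intro l _
        refine Measurable.indicator (measurable_II c a l i y).enorm ?_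
        exact measurableSet_le (measurable_ZZ c a l i y).norm measurable_const
    _ ≤ A * kap (c (i, 0)) (a (i, 0)) y + ∑ l ∈ Finset.univ.erase i, bd c a A B l i y := by
        refine add_le_add (lintegral_eta μ A hA _ y) (Finset.sum_le_sum fun l hl => ?_)
        exact fixed hH hc μ A B hB hA y l i (Finset.ne_of_mem_erase hl)

/-- The expectation for fixed `y`, one factor. -/
theorem fix0 {c a : Fin k × Fin (m + 1) → Fin t → ℝ} (hc : ∀ b s, c b s ≠ 0)
    (μ : Fin k × Fin (m + 1) → Fin t → Measure ℝ)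
    [∀ b s, IsProbabilityMeasure (μ b s)] (A : ℝ≥0)
    (hA : ∀ b s, ∫⁻ x, ‖x‖ₑ ∂(μ b s) ≤ A) (y : ℝ) (b : Fin k × Fin (m + 1)) :
    ∑ s, ∫⁻ v, (K0 c a b s ∩ U0 c a b s).indicator (fun p => ‖D0 c a b s p.1 p.2‖ₑ)
        (v, y) ∂(PP μ) ≤ A * kap (c b) (a b) y := by
  classical
  set s0 := sel (c b) (a b) y with hs0
  have h1 : ∑ s, ∫⁻ v, (K0 c a b s ∩ U0 c a b s).indicator (fun p => ‖D0 c a b s p.1 p.2‖ₑ)
        (v, y) ∂(PP μ) = ∫⁻ v, (K0 c a b s0 ∩ U0 c a b s0).indicator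
          (fun p => ‖D0 c a b s0 p.1 p.2‖ₑ) (v, y) ∂(PP μ) := by
    refine Finset.sum_eq_single s0 (fun s _ hs => ?_) (fun h => absurd (Finset.mem_univ _) h)
    have : ∀ v : Fin k × Fin (m + 1) → Fin t → ℝ, (K0 c a b s ∩ U0 c a b s).indicator
        (fun p => ‖D0 c a b s p.1 p.2‖ₑ) (v, y) = 0 := by
      intro v
      refine Set.indicator_of_notMem (fun hmem => hs ?_) _
      exact (sel_unique ⟨hmem.1, hmem.2⟩).symm
    simp only [this, lintegral_zero]
  rw [h1]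
  refine le_trans (lintegral_mono fun v => ?_) (lintegral_eta μ A hA b y)
  by_cases hmem : (v, y) ∈ K0 c a b s0 ∩ U0 c a b s0
  · rw [Set.indicator_of_mem hmem]
    exact (D0_eq hc hmem.1 hmem.2).le
  · rw [Set.indicator_of_notMem hmem]
    exact zero_le

end asm3

end Pool.Agent.T9h20.TA
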