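import Pool.Agent.T9h20.TA.Asm3

/-!
# The smoothed real tau-conjecture: integration over `y`, covering by pivots
-/

set_option autoImplicit false

open MeasureTheory Set
open scoped ENNReal NNReal

namespace Pool.Agent.T9h20.TA

section asm4

variable {k m t : ℕ} [NeZero t]

theorem sum_lintegral_le {ι : Type} (S : Finset ι) (f : ι → ℝ → ℝ≥0∞) :
    ∑ s ∈ S, ∫⁻ y, f s y ≤ ∫⁻ y, ∑ s ∈ S, f s y := by
  classical
  induction S using Finset.induction_on with
  | empty => simp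
  | insert s S hs ih =>
    rw [Finset.sum_insert hs]
    simp only [Finset.sum_insert hs]
    exact (add_le_add le_rfl ih).trans (le_lintegral_add _ _)

theorem measurable_lam (c a : Fin k × Fin (m + 1) → Fin t → ℝ) (l i : Fin k) :
    Measurable (lam c a l i) := by
  unfold lam
  exact (Finset.measurable_fun_sum _ fun j _ => measurable_ta _ _).sub
    (Finset.measurable_fun_sum _ fun j _ => measurable_ta _ _)

theorem measurable_zz (c a : Fin k × Fin (m + 1) → Fin t → ℝ) (l i : Fin k) :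
    Measurable (zz c a l i) := by
  unfold zz
  exact (Finset.measurable_fun_prod _ fun j _ => (continuous_mx _ _).measurable).div
    (Finset.measurable_fun_prod _ fun j _ => (continuous_mx _ _).measurable)

theorem drift (hG : SDrift) {c a : Fin k × Fin (m + 1) → Fin t → ℝ} (hc : ∀ b s, c b s ≠ 0)
    (l i : Fin k) :
    ∫⁻ y, ENNReal.ofReal (|lam c a l i y| * Real.exp (-(th m * |Real.log (zz c a l i y)|))) ≤
      ENNReal.ofReal ((2 * ((m : ℝ) + 1) * (t : ℝ) ^ 2 + 1) * (4 * ((m : ℝ) + 1))) := by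
  set cc : Fin ((m + 1) + (m + 1)) → Fin t → ℝ := fun x =>
    Fin.addCases (motive := fun _ => Fin t → ℝ) (fun j => c (l, j)) (fun j => c (i, j)) x with hcc
  set aa : Fin ((m + 1) + (m + 1)) → Fin t → ℝ := fun x =>
    Fin.addCases (motive := fun _ => Fin t → ℝ) (fun j => a (l, j)) (fun j => a (i, j)) x with haa
  set ee : Fin ((m + 1) + (m + 1)) → ℝ := fun x =>
    Fin.addCases (motive := fun _ => ℝ) (fun _ => 1) (fun _ => -1) x with hee
  have hcne : ∀ j s, cc j s ≠ 0 := by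
    intro j
    refine Fin.addCases (fun j s => ?_) (fun j s => ?_) j
    · simp only [hcc, Fin.addCases_left]
      exact hc _ _
    · simp only [hcc, Fin.addCases_right]
      exact hc _ _
  have h := hG ((m + 1) + (m + 1)) t cc aa ee (th m) hcne (th_pos m)
  have e1 : ∀ y, ∑ j, ee j * ta (cc j) (aa j) y = lam c a l i y := by
    intro y
    rw [Fin.sum_univ_add]
    simp only [hcc, haa, hee, Fin.addCases_left, Fin.addCases_right]
    unfold lam
    simp only [one_mul, neg_mul, Finset.sum_neg_distrib, sub_eq_add_neg]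
  have e2 : ∀ y, ∑ j, ee j * Real.log (mx (cc j) (aa j) y) = Real.log (zz c a l i y) := by
    intro y
    rw [Fin.sum_univ_add]
    simp only [hcc, haa, hee, Fin.addCases_left, Fin.addCases_right]
    unfold zz
    rw [Real.log_div (prod_mx_pos hc y l).ne' (prod_mx_pos hc y i).ne',
      Real.log_prod (fun j _ => (mx_pos (hc _) y).ne'),
      Real.log_prod (fun j _ => (mx_pos (hc _) y).ne')]
    simp only [one_mul, neg_mul, Finset.sum_neg_distrib, sub_eq_add_neg]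
  simp only [e1, e2] at h
  refine h.trans (le_of_eq ?_)
  congr 1
  have : (2 : ℝ) / th m = 4 * ((m : ℝ) + 1) := by
    unfold th
    field_simp
    ring
  rw [this]
  push_cast
  ring

/-- The bound of the integral of `bd`. -/
noncomputable def bd2 (m t : ℕ) (A B : ℝ≥0) : ℝ≥0∞ :=
  A * (t : ℝ≥0∞) ^ 2 +
    t * A * (ENNReal.ofReal ((2 * ((m : ℝ) + 1) * (t : ℝ) ^ 2 + 1) * (4 * ((m : ℝ) + 1))) *
      ((1 + t * A) * (1 + 4 * B)) +
      2 * A * B * (m * (t : ℝ≥0∞) ^ 2 + m * (t : ℝ≥0∞) ^ 2))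

theorem lintegral_sum_kap (hF : SKap) {c a : Fin k × Fin (m + 1) → Fin t → ℝ}
    (hc : ∀ b s, c b s ≠ 0) (l : Fin k) :
    ∫⁻ y, ∑ b ∈ Bl k m l, kap (c b) (a b) y ≤ m * (t : ℝ≥0∞) ^ 2 := by
  rw [lintegral_finsetSum _ fun b _ => measurable_kap (c b) (a b)]
  refine (Finset.sum_le_sum fun b _ => hF t (c b) (a b) (hc b)).trans ?_
  rw [Finset.sum_const, card_Bl, nsmul_eq_mul]

theorem split_lin (f1 f2 f3 f4 : ℝ → ℝ≥0∞) (h1 : Measurable f1) (h2 : Measurable f2)
    (h3 : Measurable f3) (h4 : Measurable f4) (p q r s : ℝ≥0∞) :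
    ∫⁻ y, (p * f1 y + q * (f2 y * r + s * (f3 y + f4 y))) =
      p * (∫⁻ y, f1 y) + q * ((∫⁻ y, f2 y) * r + s * ((∫⁻ y, f3 y) + ∫⁻ y, f4 y)) := by
  have e1 : Measurable fun y => f2 y * r + s * (f3 y + f4 y) := by fun_prop
  have e2 : Measurable fun y => f3 y + f4 y := by fun_prop
  rw [lintegral_add_left (h1.const_mul _), lintegral_const_mul _ h1, lintegral_const_mul _ e1,
    lintegral_add_left (h2.mul_const _), lintegral_mul_const _ h2, lintegral_const_mul _ e2,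
    lintegral_add_left h3]

theorem lintegral_bd (hF : SKap) (hG : SDrift) {c a : Fin k × Fin (m + 1) → Fin t → ℝ}
    (hc : ∀ b s, c b s ≠ 0) (A B : ℝ≥0) (l i : Fin k) :
    ∫⁻ y, bd c a A B l i y ≤ bd2 m t A B := by
  have hk : ∀ b, Measurable (kap (c b) (a b)) := fun b => measurable_kap _ _
  have hd : Measurable fun y => ENNReal.ofReal
      (|lam c a l i y| * Real.exp (-(th m * |Real.log (zz c a l i y)|))) := by
    refine ENNReal.measurable_ofReal.comp ?_
    refine (measurable_lam c a l i).norm.mul ?_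
    exact Real.measurable_exp.comp
      (((Real.measurable_log.comp (measurable_zz c a l i)).norm.const_mul _).neg)
  have hs : ∀ l, Measurable fun y => ∑ b ∈ Bl k m l, kap (c b) (a b) y := fun l =>
    Finset.measurable_fun_sum _ fun b _ => hk b
  unfold bd bd2
  rw [split_lin _ _ _ _ (hk _) hd (hs l) (hs i)]
  gcongr
  · exact hF t _ _ (hc _)
  · exact drift hG hc l i
  · exact lintegral_sum_kap hF hc l
  · exact lintegral_sum_kap hF hc i

theorem piv (hR : SRice) (hH : SFix) (hL : SLogD) (hM : SMom) (hF : SKap) (hG : SDrift)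
    {c a : Fin k × Fin (m + 1) → Fin t → ℝ} (hc : ∀ b s, c b s ≠ 0)
    (μ : Fin k × Fin (m + 1) → Fin t → Measure ℝ)
    [∀ b s, IsProbabilityMeasure (μ b s)] (A B : ℝ≥0)
    (hB : ∀ b s, μ b s ≤ (B : ℝ≥0∞) • (volume : Measure ℝ))
    (hA : ∀ b s, ∫⁻ x, ‖x‖ₑ ∂(μ b s) ≤ A) (i : Fin k) :
    ∑ s, ∫⁻ v, (({y : ℝ | (v, y) ∈ KK c a i s ∧ (v, y) ∈ UU c a i s ∧
        FF c a v y = 0}.encard : ℕ∞) : ℝ≥0∞) ∂(PP μ) ≤
      B * (A * (t : ℝ≥0∞) ^ 2 + (k - 1 : ℕ) * bd2 m t A B) := by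
  classical
  calc ∑ s, ∫⁻ v, (({y : ℝ | (v, y) ∈ KK c a i s ∧ (v, y) ∈ UU c a i s ∧
        FF c a v y = 0}.encard : ℕ∞) : ℝ≥0∞) ∂(PP μ)
      ≤ ∑ s, B * ∫⁻ y, ∫⁻ v, (KK c a i s ∩ UU c a i s).indicator
          (fun p => ‖D1 c a i s p.1 p.2‖ₑ) (v, y) ∂(PP μ) :=
        Finset.sum_le_sum fun s _ => rice1 hR c a hc μ B hB i s
    _ = B * ∑ s, ∫⁻ y, ∫⁻ v, (KK c a i s ∩ UU c a i s).indicator
          (fun p => ‖D1 c a i s p.1 p.2‖ₑ) (v, y) ∂(PP μ) := by rw [Finset.mul_sum]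
    _ ≤ B * ∫⁻ y, ∑ s, ∫⁻ v, (KK c a i s ∩ UU c a i s).indicator
          (fun p => ‖D1 c a i s p.1 p.2‖ₑ) (v, y) ∂(PP μ) := by
        gcongr
        exact sum_lintegral_le _ _
    _ ≤ B * ∫⁻ y, (A * kap (c (i, 0)) (a (i, 0)) y +
          ∑ l ∈ Finset.univ.erase i, bd c a A B l i y) := by
        gcongr with y
        exact fix1 hH hL hM hc μ A B hB hA y i
    _ ≤ B * (A * (t : ℝ≥0∞) ^ 2 + (k - 1 : ℕ) * bd2 m t A B) := by
        gcongr
        rw [lintegral_add_left ((measurable_kap _ _).const_mul _),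
          lintegral_const_mul _ (measurable_kap _ _), lintegral_finsetSum']
        · gcongr
          · exact hF t _ _ (hc _)
          · refine (Finset.sum_le_sum fun l _ => lintegral_bd hF hG hc A B l i).trans ?_
            rw [Finset.sum_const, Finset.card_erase_of_mem (Finset.mem_univ i),
              Finset.card_univ, Fintype.card_fin, nsmul_eq_mul]
        · intro l _
          have hk : ∀ b, Measurable (kap (c b) (a b)) := fun b => measurable_kap _ _
          have hd : Measurable fun y => ENNReal.ofReal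
              (|lam c a l i y| * Real.exp (-(th m * |Real.log (zz c a l i y)|))) := by
            refine ENNReal.measurable_ofReal.comp ?_
            refine (measurable_lam c a l i).norm.mul ?_
            exact Real.measurable_exp.comp
              (((Real.measurable_log.comp (measurable_zz c a l i)).norm.const_mul _).neg)
          have hs : ∀ l, Measurable fun y => ∑ b ∈ Bl k m l, kap (c b) (a b) y := fun l =>
            Finset.measurable_fun_sum _ fun b _ => hk b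
          unfold bd
          exact (((hk _).const_mul _).add (((hd.mul_const _).add
            (((hs l).add (hs i)).const_mul _)).const_mul _)).aemeasurable

theorem piv0 (hR : SRice) (hF : SKap)
    {c a : Fin k × Fin (m + 1) → Fin t → ℝ} (hc : ∀ b s, c b s ≠ 0)
    (μ : Fin k × Fin (m + 1) → Fin t → Measure ℝ)
    [∀ b s, IsProbabilityMeasure (μ b s)] (A B : ℝ≥0)
    (hB : ∀ b s, μ b s ≤ (B : ℝ≥0∞) • (volume : Measure ℝ))
    (hA : ∀ b s, ∫⁻ x, ‖x‖ₑ ∂(μ b s) ≤ A) (b : Fin k × Fin (m + 1)) :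
    ∑ s, ∫⁻ v, (({y : ℝ | (v, y) ∈ K0 c a b s ∧ (v, y) ∈ U0 c a b s ∧
        fn (c b) (a b) (v b) y = 0}.encard : ℕ∞) : ℝ≥0∞) ∂(PP μ) ≤
      B * (A * (t : ℝ≥0∞) ^ 2) := by
  calc ∑ s, ∫⁻ v, (({y : ℝ | (v, y) ∈ K0 c a b s ∧ (v, y) ∈ U0 c a b s ∧
        fn (c b) (a b) (v b) y = 0}.encard : ℕ∞) : ℝ≥0∞) ∂(PP μ)
      ≤ ∑ s, B * ∫⁻ y, ∫⁻ v, (K0 c a b s ∩ U0 c a b s).indicator
          (fun p => ‖D0 c a b s p.1 p.2‖ₑ) (v, y) ∂(PP μ) :=
        Finset.sum_le_sum fun s _ => rice0 hR c a hc μ B hB b s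
    _ = B * ∑ s, ∫⁻ y, ∫⁻ v, (K0 c a b s ∩ U0 c a b s).indicator
          (fun p => ‖D0 c a b s p.1 p.2‖ₑ) (v, y) ∂(PP μ) := by rw [Finset.mul_sum]
    _ ≤ B * ∫⁻ y, ∑ s, ∫⁻ v, (K0 c a b s ∩ U0 c a b s).indicator
          (fun p => ‖D0 c a b s p.1 p.2‖ₑ) (v, y) ∂(PP μ) := by
        gcongr
        exact sum_lintegral_le _ _
    _ ≤ B * ∫⁻ y, A * kap (c b) (a b) y := by
        gcongr with y
        exact fix0 hc μ A hA y b
    _ ≤ B * (A * (t : ℝ≥0∞) ^ 2) := by
        gcongr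
        rw [lintegral_const_mul _ (measurable_kap _ _)]
        gcongr
        exact hF t _ _ (hc _)

/-! ### Covering -/

theorem cover [NeZero k] {c a : Fin k × Fin (m + 1) → Fin t → ℝ} (hc : ∀ b s, c b s ≠ 0)
    (v : Fin k × Fin (m + 1) → Fin t → ℝ) :
    {y : ℝ | FF c a v y = 0} ⊆
      (⋃ i : Fin k, ⋃ s : Fin t, {y : ℝ | (v, y) ∈ KK c a i s ∧ (v, y) ∈ UU c a i s ∧
        FF c a v y = 0}) ∪
      ⋃ j : Fin m, ⋃ s : Fin t, {y : ℝ | (v, y) ∈ K0 c a (0, j.succ) s ∧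
        (v, y) ∈ U0 c a (0, j.succ) s ∧
        fn (c (0, j.succ)) (a (0, j.succ)) (v (0, j.succ)) y = 0} := by
  classical
  intro y hy
  obtain ⟨i, -, hi⟩ := Finset.exists_max_image (Finset.univ : Finset (Fin k))
    (fun l => |mx (c (l, 0)) (a (l, 0)) y * PR c a v l y|) ⟨0, Finset.mem_univ 0⟩
  by_cases h0 : PR c a v i y = 0
  · right
    have h1 : PR c a v 0 y = 0 := by
      have h2 := hi 0 (Finset.mem_univ 0)
      simp only [h0, mul_zero, abs_zero] at h2
      have h3 := abs_nonpos_iff.mp h2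
      exact (mul_eq_zero.mp h3).resolve_left (mx_pos (hc _) y).ne'
    unfold PR at h1
    obtain ⟨j, -, hj⟩ := Finset.prod_eq_zero_iff.mp h1
    refine Set.mem_iUnion.mpr ⟨j, Set.mem_iUnion.mpr
      ⟨sel (c (0, j.succ)) (a (0, j.succ)) y, ?_, ?_, hj⟩⟩
    · exact (isSel_sel (c (0, j.succ)) (a (0, j.succ)) y).1
    · exact (isSel_sel (c (0, j.succ)) (a (0, j.succ)) y).2
  · left
    refine Set.mem_iUnion.mpr ⟨i, Set.mem_iUnion.mpr
      ⟨sel (c (i, 0)) (a (i, 0)) y, ⟨fun l => hi l (Finset.mem_univ l), ?_⟩, ⟨h0, ?_⟩, hy⟩⟩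
    · exact (isSel_sel (c (i, 0)) (a (i, 0)) y).1
    · exact (isSel_sel (c (i, 0)) (a (i, 0)) y).2

theorem encard_iUnion_le' {ι : Type} [Fintype ι] (S : ι → Set ℝ) :
    (((⋃ i, S i).encard : ℕ∞) : ℝ≥0∞) ≤ ∑ i, (((S i).encard : ℕ∞) : ℝ≥0∞) := by
  classical
  have h : ∀ T : Finset ι, (((⋃ i ∈ T, S i).encard : ℕ∞) : ℝ≥0∞) ≤
      ∑ i ∈ T, (((S i).encard : ℕ∞) : ℝ≥0∞) := by
    intro T
    induction T using Finset.induction_on with
    | empty => simp
    | insert i T hi ih =>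
      rw [Finset.sum_insert hi, Finset.set_biUnion_insert]
      refine le_trans ?_ (add_le_add le_rfl ih)
      have := Set.encard_union_le (S i) (⋃ i ∈ T, S i)
      rw [← ENat.toENNReal_add]
      exact ENat.toENNReal_mono this
  simpa using h Finset.univ

theorem count_le [NeZero k] {c a : Fin k × Fin (m + 1) → Fin t → ℝ} (hc : ∀ b s, c b s ≠ 0)
    (v : Fin k × Fin (m + 1) → Fin t → ℝ) :
    (({y : ℝ | FF c a v y = 0}.encard : ℕ∞) : ℝ≥0∞) ≤
      ∑ i, ∑ s, (({y : ℝ | (v, y) ∈ KK c a i s ∧ (v, y) ∈ UU c a i s ∧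
        FF c a v y = 0}.encard : ℕ∞) : ℝ≥0∞) +
      ∑ j : Fin m, ∑ s, (({y : ℝ | (v, y) ∈ K0 c a (0, j.succ) s ∧
        (v, y) ∈ U0 c a (0, j.succ) s ∧
        fn (c (0, j.succ)) (a (0, j.succ)) (v (0, j.succ)) y = 0}.encard : ℕ∞) : ℝ≥0∞) := by
  refine (ENat.toENNReal_mono ((Set.encard_le_encard (cover hc v)).trans
    (Set.encard_union_le _ _))).trans ?_
  rw [ENat.toENNReal_add]
  refine add_le_add ?_ ?_
  · refine (encard_iUnion_le' _).trans (Finset.sum_le_sum fun i _ => ?_)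
    exact encard_iUnion_le' _
  · refine (encard_iUnion_le' _).trans (Finset.sum_le_sum fun j _ => ?_)
    exact encard_iUnion_le' _

theorem measurable_count1 (hMe : SMeas) (c a : Fin k × Fin (m + 1) → Fin t → ℝ) (i : Fin k)
    (s : Fin t) : Measurable fun v : Fin k × Fin (m + 1) → Fin t → ℝ =>
      (({y : ℝ | (v, y) ∈ KK c a i s ∧ (v, y) ∈ UU c a i s ∧
        FF c a v y = 0}.encard : ℕ∞) : ℝ≥0∞) := by
  have h := hMe (Fin k × Fin (m + 1) → Fin t → ℝ)
    (KK c a i s ∩ {p | FF c a p.1 p.2 = 0}) (UU c a i s)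
    ((isClosed_KK c a i s).inter (isClosed_eq (continuous_FF₂ c a) continuous_const))
    (isOpen_UU c a i s)
  convert h using 5 with v
  ext y
  simp only [Set.mem_inter_iff, Set.mem_ofPred_eq]
  tauto

omit [NeZero t] in
theorem measurable_count0 (hMe : SMeas) (c a : Fin k × Fin (m + 1) → Fin t → ℝ)
    (b : Fin k × Fin (m + 1)) (s : Fin t) :
    Measurable fun v : Fin k × Fin (m + 1) → Fin t → ℝ =>
      (({y : ℝ | (v, y) ∈ K0 c a b s ∧ (v, y) ∈ U0 c a b s ∧
        fn (c b) (a b) (v b) y = 0}.encard : ℕ∞) : ℝ≥0∞) := by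
  have h := hMe (Fin k × Fin (m + 1) → Fin t → ℝ)
    (K0 c a b s ∩ {p | fn (c b) (a b) (p.1 b) p.2 = 0}) (U0 c a b s)
    ((isClosed_K0 c a b s).inter (isClosed_eq (continuous_fn₂ c a b) continuous_const))
    (isOpen_U0 c a b s)
  convert h using 5 with v
  ext y
  simp only [Set.mem_inter_iff, Set.mem_ofPred_eq]
  tauto

/-- The bound for exponential sums, raw form. -/
theorem main_raw (hMe : SMeas) (hR : SRice) (hH : SFix) (hL : SLogD) (hM : SMom) (hF : SKap)
    (hG : SDrift) [NeZero k]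
    {c a : Fin k × Fin (m + 1) → Fin t → ℝ} (hc : ∀ b s, c b s ≠ 0)
    (μ : Fin k × Fin (m + 1) → Fin t → Measure ℝ)
    [∀ b s, IsProbabilityMeasure (μ b s)] (A B : ℝ≥0)
    (hB : ∀ b s, μ b s ≤ (B : ℝ≥0∞) • (volume : Measure ℝ))
    (hA : ∀ b s, ∫⁻ x, ‖x‖ₑ ∂(μ b s) ≤ A) :
    ∫⁻ v, (({y : ℝ | FF c a v y = 0}.encard : ℕ∞) : ℝ≥0∞) ∂(PP μ) ≤
      k * (B * (A * (t : ℝ≥0∞) ^ 2 + (k - 1 : ℕ) * bd2 m t A B)) +
        m * (B * (A * (t : ℝ≥0∞) ^ 2)) := by
  refine (lintegral_mono fun v => count_le hc v).trans ?_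
  rw [lintegral_add_left, lintegral_finsetSum, lintegral_finsetSum]
  · refine add_le_add ?_ ?_
    · calc ∑ i, ∫⁻ v, ∑ s, (({y : ℝ | (v, y) ∈ KK c a i s ∧ (v, y) ∈ UU c a i s ∧
            FF c a v y = 0}.encard : ℕ∞) : ℝ≥0∞) ∂(PP μ)
          ≤ ∑ _i : Fin k, B * (A * (t : ℝ≥0∞) ^ 2 + (k - 1 : ℕ) * bd2 m t A B) := by
            refine Finset.sum_le_sum fun i _ => ?_
            rw [lintegral_finsetSum _ fun s _ => measurable_count1 hMe c a i s]
            exact piv hR hH hL hM hF hG hc μ A B hB hA i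
        _ = k * (B * (A * (t : ℝ≥0∞) ^ 2 + (k - 1 : ℕ) * bd2 m t A B)) := by
            rw [Finset.sum_const, Finset.card_univ, Fintype.card_fin, nsmul_eq_mul]
    · calc ∑ j : Fin m, ∫⁻ v, ∑ s, (({y : ℝ | (v, y) ∈ K0 c a (0, j.succ) s ∧
            (v, y) ∈ U0 c a (0, j.succ) s ∧
            fn (c (0, j.succ)) (a (0, j.succ)) (v (0, j.succ)) y = 0}.encard : ℕ∞) : ℝ≥0∞)
            ∂(PP μ)
          ≤ ∑ _j : Fin m, B * (A * (t : ℝ≥0∞) ^ 2) := by
            refine Finset.sum_le_sum fun j _ => ?_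
            rw [lintegral_finsetSum _ fun s _ => measurable_count0 hMe c a (0, j.succ) s]
            exact piv0 hR hF hc μ A B hB hA (0, j.succ)
        _ = m * (B * (A * (t : ℝ≥0∞) ^ 2)) := by
            rw [Finset.sum_const, Finset.card_univ, Fintype.card_fin, nsmul_eq_mul]
  · intro j _
    exact Finset.measurable_fun_sum _ fun s _ => measurable_count0 hMe c a (0, j.succ) s
  · intro i _
    exact Finset.measurable_fun_sum _ fun s _ => measurable_count1 hMe c a i s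
  · exact Finset.measurable_fun_sum _ fun i _ => Finset.measurable_fun_sum _ fun s _ =>
      measurable_count1 hMe c a i s

end asm4

end Pool.Agent.T9h20.TA
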