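import Pool.Agent.T9h20.TA.Asm4
import Pool.Agent.T9h71.TA.Area
import Pool.Agent.T9h48.TA.Meas
import Pool.Agent.T9h80.TA.Coord
import Pool.Agent.T9h85.TA.Block
import Pool.Agent.T9h67.TA.Mom
import Pool.Agent.T9h67.TA.Rice
import Pool.Agent.T9h95.TA.Kap
import Pool.Agent.T9h95.TA.LogD
import Pool.Agent.T9h53.TA.Drift
import Pool.Agent.T9h22.TA.H

/-!
# The smoothed real tau-conjecture: exponential sums with general laws
-/

set_option autoImplicit false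

open MeasureTheory Set
open scoped ENNReal NNReal

namespace Pool.Agent.T9h20.TA

section asm5

variable {k m t : ℕ}

/-- The numerical bound, real version. -/
theorem num_real (k M t n G : ℝ) (hk : 1 ≤ k) (hM : 1 ≤ M) (ht : 1 ≤ t) (hn0 : 0 ≤ n)
    (hn : n + 1 = M) (hG : 0 ≤ G) :
    k * (G * t ^ 2 + (k - 1) * (G * t ^ 2 + t * G * ((2 * M * t ^ 2 + 1) * (4 * M) *
      ((1 + t * G) * (1 + 4)) + 2 * G * (n * t ^ 2 + n * t ^ 2)))) + n * (G * t ^ 2) ≤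
      66 * k ^ 2 * M ^ 2 * t ^ 3 * G * (1 + t * G) := by
  have hnM : n ≤ M := by linarith
  have hk0 : 0 ≤ k - 1 := by linarith
  have hk1 : k * (k - 1) ≤ k ^ 2 := by nlinarith
  have ht2 : (1 : ℝ) ≤ t ^ 2 := one_le_pow₀ ht
  have hMt : 1 ≤ M * t ^ 2 := by nlinarith
  have htG : 0 ≤ t * G := by positivity
  -- the unit `X`
  set X : ℝ := k ^ 2 * M ^ 2 * t ^ 3 * G * (1 + t * G) with hX
  have hk2 : (1 : ℝ) ≤ k ^ 2 := one_le_pow₀ hk
  have hM2 : (1 : ℝ) ≤ M ^ 2 := one_le_pow₀ hM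
  have hMM : M ≤ M ^ 2 := by nlinarith
  have ht23 : t ^ 2 ≤ t ^ 3 := pow_le_pow_right₀ ht (by norm_num)
  -- first piece
  have p1 : k * (G * t ^ 2) + k * (k - 1) * (G * t ^ 2) ≤ X := by
    have e : k * (G * t ^ 2) + k * (k - 1) * (G * t ^ 2) = k ^ 2 * 1 * t ^ 2 * G * 1 := by ring
    rw [e, hX]
    gcongr
    linarith
  have p2 : n * (G * t ^ 2) ≤ X := by
    have e : n * (G * t ^ 2) = 1 * n * t ^ 2 * G * 1 := by ring
    rw [e, hX]
    gcongr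
    · exact hnM.trans hMM
    · linarith
  have p3 : k * (k - 1) * (t * G * ((2 * M * t ^ 2 + 1) * (4 * M) *
      ((1 + t * G) * (1 + 4)))) ≤ 60 * X := by
    have e1 : (2 * M * t ^ 2 + 1) * (4 * M) ≤ 12 * M ^ 2 * t ^ 2 := by
      have : (2 * M * t ^ 2 + 1) ≤ 3 * (M * t ^ 2) := by linarith
      calc (2 * M * t ^ 2 + 1) * (4 * M) ≤ 3 * (M * t ^ 2) * (4 * M) := by gcongr
        _ = 12 * M ^ 2 * t ^ 2 := by ring
    calc k * (k - 1) * (t * G * ((2 * M * t ^ 2 + 1) * (4 * M) * ((1 + t * G) * (1 + 4))))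
        ≤ k ^ 2 * (t * G * (12 * M ^ 2 * t ^ 2 * ((1 + t * G) * (1 + 4)))) := by gcongr
      _ = 60 * X := by rw [hX]; ring
  have p4 : k * (k - 1) * (t * G * (2 * G * (n * t ^ 2 + n * t ^ 2))) ≤ 4 * X := by
    calc k * (k - 1) * (t * G * (2 * G * (n * t ^ 2 + n * t ^ 2)))
        ≤ k ^ 2 * (t * G * (2 * G * (M ^ 2 * t ^ 2 + M ^ 2 * t ^ 2))) := by
          have := hnM.trans hMM
          gcongr
      _ = 4 * (k ^ 2 * M ^ 2 * t ^ 3 * G * G) := by ring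
      _ ≤ 4 * X := by
          rw [hX]
          have : G ≤ 1 + t * G := by nlinarith
          gcongr
  nlinarith [p1, p2, p3, p4]

theorem num_bound (k m t : ℕ) (hk : 1 ≤ k) (ht : 1 ≤ t) (G : ℝ≥0) :
    (k : ℝ≥0∞) * (((1 : ℝ≥0) : ℝ≥0∞) * (G * (t : ℝ≥0∞) ^ 2 + (k - 1 : ℕ) * bd2 m t G 1)) +
        m * (((1 : ℝ≥0) : ℝ≥0∞) * (G * (t : ℝ≥0∞) ^ 2)) ≤
      66 * (k : ℝ≥0∞) ^ 2 * ((m : ℝ≥0∞) + 1) ^ 2 * (t : ℝ≥0∞) ^ 3 * G * (1 + t * G) := by
  have e : ENNReal.ofReal ((2 * ((m : ℝ) + 1) * (t : ℝ) ^ 2 + 1) * (4 * ((m : ℝ) + 1))) =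
      (((2 * ((m : ℝ≥0) + 1) * (t : ℝ≥0) ^ 2 + 1) * (4 * ((m : ℝ≥0) + 1)) : ℝ≥0) : ℝ≥0∞) := by
    rw [← ENNReal.ofReal_coe_nnreal]
    push_cast
    rfl
  have h := num_real (k : ℝ) ((m : ℝ) + 1) (t : ℝ) (m : ℝ) (G : ℝ) (by exact_mod_cast hk)
    (by linarith [(Nat.cast_nonneg m : (0 : ℝ) ≤ m)]) (by exact_mod_cast ht) (Nat.cast_nonneg m)
    rfl G.2
  have h2 : (k : ℝ≥0) * (G * (t : ℝ≥0) ^ 2 + ((k - 1 : ℕ) : ℝ≥0) * (G * (t : ℝ≥0) ^ 2 +
      t * G * ((2 * ((m : ℝ≥0) + 1) * (t : ℝ≥0) ^ 2 + 1) * (4 * ((m : ℝ≥0) + 1)) *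
      ((1 + t * G) * (1 + 4)) + 2 * G * (m * (t : ℝ≥0) ^ 2 + m * (t : ℝ≥0) ^ 2)))) +
      m * (G * (t : ℝ≥0) ^ 2) ≤
      66 * (k : ℝ≥0) ^ 2 * ((m : ℝ≥0) + 1) ^ 2 * (t : ℝ≥0) ^ 3 * G * (1 + t * G) := by
    have hk' : (((k - 1 : ℕ) : ℝ≥0) : ℝ) = (k : ℝ) - 1 := by
      rw [NNReal.coe_natCast, Nat.cast_sub hk, Nat.cast_one]
    rw [← NNReal.coe_le_coe]
    generalize ((k - 1 : ℕ) : ℝ≥0) = r at hk' ⊢
    push_cast
    rw [hk']
    exact h
  have h3 := ENNReal.coe_le_coe.mpr h2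
  unfold bd2
  rw [e]
  push_cast at h3 ⊢
  simpa only [one_mul, mul_one] using h3

theorem sRice' : SRice := Pool.Agent.T9h67.TA.sRice Pool.Agent.T9h71.TA.sArea
  Pool.Agent.T9h48.TA.sMeas Pool.Agent.T9h80.TA.sCoord

theorem sFix' : SFix := Pool.Agent.T9h22.TA.sFix Pool.Agent.T9h85.TA.sBlock
  Pool.Agent.T9h67.TA.sMom

/-- Exponential sums, laws with densities at most one. -/
theorem main_one [NeZero k] [NeZero t]
    {c a : Fin k × Fin (m + 1) → Fin t → ℝ} (hc : ∀ b s, c b s ≠ 0)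
    (μ : Fin k × Fin (m + 1) → Fin t → Measure ℝ)
    [∀ b s, IsProbabilityMeasure (μ b s)] (G : ℝ≥0)
    (hB : ∀ b s, μ b s ≤ (volume : Measure ℝ))
    (hA : ∀ b s, ∫⁻ x, ‖x‖ₑ ∂(μ b s) ≤ G) :
    ∫⁻ v, (({y : ℝ | FF c a v y = 0}.encard : ℕ∞) : ℝ≥0∞) ∂(PP μ) ≤
      66 * (k : ℝ≥0∞) ^ 2 * ((m : ℝ≥0∞) + 1) ^ 2 * (t : ℝ≥0∞) ^ 3 * G * (1 + t * G) := by
  refine (main_raw Pool.Agent.T9h48.TA.sMeas sRice' sFix' Pool.Agent.T9h95.TA.sLogD
    Pool.Agent.T9h67.TA.sMom Pool.Agent.T9h95.TA.sKap Pool.Agent.T9h53.TA.sDrift hc μ G 1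
    (fun b s => ?_) hA).trans (num_bound k m t (Nat.one_le_iff_ne_zero.mpr (NeZero.ne k))
      (Nat.one_le_iff_ne_zero.mpr (NeZero.ne t)) G)
  rw [ENNReal.coe_one, one_smul]
  exact hB b s

theorem measurable_count (c a : Fin k × Fin (m + 1) → Fin t → ℝ) :
    Measurable fun v : Fin k × Fin (m + 1) → Fin t → ℝ =>
      (({y : ℝ | FF c a v y = 0}.encard : ℕ∞) : ℝ≥0∞) := by
  have h := Pool.Agent.T9h48.TA.sMeas (Fin k × Fin (m + 1) → Fin t → ℝ)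
    {p | FF c a p.1 p.2 = 0} Set.univ (isClosed_eq (continuous_FF₂ c a) continuous_const)
    isOpen_univ
  convert h using 5 with v
  ext y
  simp

theorem FF_scale {c a : Fin k × Fin (m + 1) → Fin t → ℝ} (B : Fin k × Fin (m + 1) → Fin t → ℝ)
    (hB : ∀ b s, B b s ≠ 0) (v : Fin k × Fin (m + 1) → Fin t → ℝ) :
    FF (fun b s => c b s / B b s) a (fun b s => B b s * v b s) = FF c a v := by
  funext y
  unfold FF fn mon
  refine Finset.sum_congr rfl fun i _ => Finset.prod_congr rfl fun j _ =>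
    Finset.sum_congr rfl fun s _ => ?_
  have := hB (i, j) s
  field_simp

/-- Exponential sums, general laws. -/
theorem main_law [NeZero k] [NeZero t]
    {c a : Fin k × Fin (m + 1) → Fin t → ℝ} (hc : ∀ b s, c b s ≠ 0)
    (ν : Fin k × Fin (m + 1) → Fin t → Measure ℝ)
    [∀ b s, IsProbabilityMeasure (ν b s)] (G : ℝ≥0)
    (hν : ∀ b s, ∃ B : ℝ≥0, ν b s ≤ (B : ℝ≥0∞) • (volume : Measure ℝ) ∧
      (B : ℝ≥0∞) * ∫⁻ x, ‖x‖ₑ ∂(ν b s) ≤ G) :
    ∫⁻ v, (({y : ℝ | FF c a v y = 0}.encard : ℕ∞) : ℝ≥0∞) ∂(PP ν) ≤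
      66 * (k : ℝ≥0∞) ^ 2 * ((m : ℝ≥0∞) + 1) ^ 2 * (t : ℝ≥0∞) ^ 3 * G * (1 + t * G) := by
  choose B hB hA using hν
  have hB0 : ∀ b s, (B b s : ℝ) ≠ 0 := by
    intro b s h0
    have h1 : B b s = 0 := by exact_mod_cast h0
    have h2 := hB b s
    rw [h1, ENNReal.coe_zero, zero_smul] at h2
    have h3 := h2 Set.univ
    rw [measure_univ] at h3
    simp at h3
  set f : Fin k × Fin (m + 1) → Fin t → ℝ → ℝ := fun b s x => (B b s : ℝ) * x with hf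
  have hfm : ∀ b s, Measurable (f b s) := fun b s => measurable_const_mul _
  set μ : Fin k × Fin (m + 1) → Fin t → Measure ℝ := fun b s => (ν b s).map (f b s) with hμ
  have hprob : ∀ b s, IsProbabilityMeasure (μ b s) := fun b s =>
    Measure.isProbabilityMeasure_map (hfm b s).aemeasurable
  have hle : ∀ b s, μ b s ≤ (volume : Measure ℝ) := by
    intro b s
    have h1 : μ b s ≤ ((B b s : ℝ≥0∞) • (volume : Measure ℝ)).map (f b s) :=
      Measure.map_mono (hB b s) (hfm b s)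
    refine h1.trans (le_of_eq ?_)
    rw [Measure.map_smul]
    have h2 : Measure.map (f b s) volume = ENNReal.ofReal |(B b s : ℝ)⁻¹| • volume :=
      Real.map_volume_mul_left (hB0 b s)
    rw [h2, smul_smul]
    have h3 : (B b s : ℝ≥0∞) * ENNReal.ofReal |(B b s : ℝ)⁻¹| = 1 := by
      rw [← ENNReal.ofReal_coe_nnreal, ← ENNReal.ofReal_mul (NNReal.coe_nonneg (B b s)),
        abs_of_nonneg (inv_nonneg.mpr (NNReal.coe_nonneg (B b s)))]
      have : ((B b s : ℝ≥0) : ℝ) * (B b s : ℝ)⁻¹ = 1 := mul_inv_cancel₀ (hB0 b s)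
      rw [this, ENNReal.ofReal_one]
    rw [h3, one_smul]
  have hmom : ∀ b s, ∫⁻ x, ‖x‖ₑ ∂(μ b s) ≤ G := by
    intro b s
    rw [hμ, lintegral_map measurable_enorm (hfm b s)]
    refine le_trans (le_of_eq ?_) (hA b s)
    rw [← lintegral_const_mul _ measurable_enorm]
    refine lintegral_congr fun x => ?_
    rw [hf]
    simp only [enorm_mul]
    congr 1
    exact (Real.enorm_of_nonneg (B b s).2).trans (ENNReal.ofReal_coe_nnreal)
  have hPP : PP μ = (PP ν).map fun v b s => f b s (v b s) := by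
    unfold PP
    rw [Measure.pi_map_pi (μ := fun b => Measure.pi (ν b)) (f := fun b w s => f b s (w s))]
    · congr 1
      funext b
      rw [Measure.pi_map_pi fun s => (hfm b s).aemeasurable]
    · intro b
      exact (measurable_pi_lambda _ fun s => (hfm b s).comp (measurable_pi_apply s)).aemeasurable
  have hmain := main_one (c := fun b s => c b s / (B b s : ℝ)) (a := a)
    (fun b s => div_ne_zero (hc b s) (hB0 b s)) μ G hle hmom
  rw [hPP, lintegral_map (measurable_count _ _)] at hmain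
  · refine le_trans (le_of_eq ?_) hmain
    refine lintegral_congr fun v => ?_
    have : FF (fun b s => c b s / (B b s : ℝ)) a (fun b s => f b s (v b s)) = FF c a v :=
      FF_scale (fun b s => (B b s : ℝ)) hB0 v
    rw [this]
  · exact measurable_pi_lambda _ fun b => measurable_pi_lambda _ fun s =>
      (hfm b s).comp ((measurable_pi_apply s).comp (measurable_pi_apply b))

end asm5

end Pool.Agent.T9h20.TA
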