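import Pool.Agent.T9h20.TA.Asm5

/-!
# The smoothed real tau-conjecture: polynomials
-/

set_option autoImplicit false

open MeasureTheory Set ProbabilityTheory
open scoped ENNReal NNReal

namespace Pool.Agent.T9h20.TA

section asm6

variable {k m t : ℕ}

/-- The value at `x`. -/
noncomputable def ev (e : Fin k → Fin m → Fin t → ℕ) (u : Fin k → Fin m → Fin t → ℝ) (x : ℝ) : ℝ :=
  ∑ i, ∏ j, ∑ s, u i j s * x ^ e i j s

theorem continuous_ev (e : Fin k → Fin m → Fin t → ℕ) :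
    Continuous fun p : (Fin k → Fin m → Fin t → ℝ) × ℝ => ev e p.1 p.2 := by
  unfold ev
  fun_prop

theorem measurable_count_ev (e : Fin k → Fin m → Fin t → ℕ) :
    Measurable fun u : Fin k → Fin m → Fin t → ℝ =>
      (({x : ℝ | ev e u x = 0}.encard : ℕ∞) : ℝ≥0∞) := by
  have h := Pool.Agent.T9h48.TA.sMeas (Fin k → Fin m → Fin t → ℝ)
    {p | ev e p.1 p.2 = 0} Set.univ (isClosed_eq (continuous_ev e) continuous_const)
    isOpen_univ
  convert h using 5 with v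
  ext y
  simp

theorem ev_exp (e : Fin k → Fin (m + 1) → Fin t → ℕ) (u : Fin k → Fin (m + 1) → Fin t → ℝ)
    (y : ℝ) : ev e u (Real.exp y) =
      FF (fun _ _ => 1) (fun b s => (e b.1 b.2 s : ℝ)) (fun b s => u b.1 b.2 s) y := by
  unfold ev FF fn mon
  refine Finset.sum_congr rfl fun i _ => Finset.prod_congr rfl fun j _ =>
    Finset.sum_congr rfl fun s _ => ?_
  rw [one_mul, ← Real.exp_nat_mul]

theorem ev_neg_exp (e : Fin k → Fin (m + 1) → Fin t → ℕ)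
    (u : Fin k → Fin (m + 1) → Fin t → ℝ) (y : ℝ) : ev e u (-Real.exp y) =
      FF (fun b s => (-1) ^ e b.1 b.2 s) (fun b s => (e b.1 b.2 s : ℝ))
        (fun b s => u b.1 b.2 s) y := by
  unfold ev FF fn mon
  refine Finset.sum_congr rfl fun i _ => Finset.prod_congr rfl fun j _ =>
    Finset.sum_congr rfl fun s _ => ?_
  rw [neg_pow, ← Real.exp_nat_mul]

theorem count_ev_le (e : Fin k → Fin (m + 1) → Fin t → ℕ)
    (u : Fin k → Fin (m + 1) → Fin t → ℝ) :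
    (({x : ℝ | ev e u x = 0}.encard : ℕ∞) : ℝ≥0∞) ≤
      1 + ((({y : ℝ | FF (fun _ _ => 1) (fun b s => (e b.1 b.2 s : ℝ))
        (fun b s => u b.1 b.2 s) y = 0}.encard : ℕ∞) : ℝ≥0∞) +
      (({y : ℝ | FF (fun b s => (-1) ^ e b.1 b.2 s) (fun b s => (e b.1 b.2 s : ℝ))
        (fun b s => u b.1 b.2 s) y = 0}.encard : ℕ∞) : ℝ≥0∞)) := by
  have hsub : {x : ℝ | ev e u x = 0} ⊆ {0} ∪
      (Real.exp '' {y : ℝ | FF (fun _ _ => 1) (fun b s => (e b.1 b.2 s : ℝ))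
        (fun b s => u b.1 b.2 s) y = 0} ∪
      (fun y => -Real.exp y) '' {y : ℝ | FF (fun b s => (-1) ^ e b.1 b.2 s)
        (fun b s => (e b.1 b.2 s : ℝ)) (fun b s => u b.1 b.2 s) y = 0}) := by
    intro x hx
    rcases lt_trichotomy x 0 with h | h | h
    · right; right
      refine ⟨Real.log (-x), ?_, ?_⟩
      · have h1 := ev_neg_exp e u (Real.log (-x))
        rw [Real.exp_log (neg_pos.mpr h), neg_neg] at h1
        exact h1.symm.trans hx
      · simp only [Real.exp_log (neg_pos.mpr h), neg_neg]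
    · left
      exact h
    · right; left
      refine ⟨Real.log x, ?_, Real.exp_log h⟩
      have h1 := ev_exp e u (Real.log x)
      rw [Real.exp_log h] at h1
      exact h1.symm.trans hx
  have h1 := (Set.encard_le_encard hsub).trans ((Set.encard_union_le _ _).trans
    (add_le_add (Set.encard_singleton _).le ((Set.encard_union_le _ _).trans
      (add_le_add (Set.encard_image_le _ _) (Set.encard_image_le _ _)))))
  have h2 := ENat.toENNReal_mono h1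
  simpa only [ENat.toENNReal_add, ENat.toENNReal_one] using h2

/-- The joint law. -/
theorem joint_law {Ω : Type*} [MeasurableSpace Ω] (P : Measure Ω) [IsProbabilityMeasure P]
    (w : Fin k → Fin m → Fin t → Ω → ℝ) (hw : ∀ i j s, Measurable (w i j s))
    (hind : iIndepFun (fun q : Fin k × Fin m × Fin t => w q.1 q.2.1 q.2.2) P) :
    P.map (fun ω (b : Fin k × Fin m) (s : Fin t) => w b.1 b.2 s ω) =
      PP fun b s => P.map (w b.1 b.2 s) := by
  have hprob : ∀ i j s, IsProbabilityMeasure (P.map (w i j s)) := fun i j s =>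
    Measure.isProbabilityMeasure_map (hw i j s).aemeasurable
  have h1 : iIndepFun (fun q : (Fin k × Fin m) × Fin t => w q.1.1 q.1.2 q.2) P :=
    hind.precomp (g := Equiv.prodAssoc (Fin k) (Fin m) (Fin t)) (Equiv.injective _)
  have h2 := iIndepFun.map_fun_eq_pi_map
    (f := fun q : (Fin k × Fin m) × Fin t => w q.1.1 q.1.2 q.2)
    (fun q => (hw q.1.1 q.1.2 q.2).aemeasurable) h1
  have h3 := Measure.infinitePi_map_curry (ι := Fin k × Fin m) (κ := Fin t)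
    (fun b s => P.map (w b.1 b.2 s))
  rw [Measure.infinitePi_eq_pi, Measure.infinitePi_eq_pi, ← h2] at h3
  have h4 : (fun i => Measure.infinitePi fun s => P.map (w (i : Fin k × Fin m).1 i.2 s)) =
      fun i => Measure.pi fun s => P.map (w i.1 i.2 s) := by
    funext i
    exact Measure.infinitePi_eq_pi _
  rw [h4] at h3
  unfold PP
  have hm2 : Measurable fun ω (q : (Fin k × Fin m) × Fin t) => w q.1.1 q.1.2 q.2 ω :=
    measurable_pi_lambda _ fun q => hw q.1.1 q.1.2 q.2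
  rw [← h3, Measure.map_map (MeasurableEquiv.measurable _) hm2]
  rfl

/-- Expected number of real zeros, general laws. -/
theorem main_ev {Ω : Type*} [MeasurableSpace Ω] (P : Measure Ω) [IsProbabilityMeasure P]
    (hk : 1 ≤ k) (hm : 1 ≤ m) (ht : 1 ≤ t) (e : Fin k → Fin m → Fin t → ℕ)
    (w : Fin k → Fin m → Fin t → Ω → ℝ) (hw : ∀ i j s, Measurable (w i j s))
    (hind : iIndepFun (fun q : Fin k × Fin m × Fin t => w q.1 q.2.1 q.2.2) P)
    (G : ℝ≥0) (hG : ∀ i j s, ∃ B : ℝ≥0, P.map (w i j s) ≤ (B : ℝ≥0∞) • (volume : Measure ℝ) ∧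
      (B : ℝ≥0∞) * ∫⁻ ω, ‖w i j s ω‖ₑ ∂P ≤ G) :
    ∫⁻ ω, (({x : ℝ | ev e (fun i j s => w i j s ω) x = 0}.encard : ℕ∞) : ℝ≥0∞) ∂P ≤
      1 + 132 * (k : ℝ≥0∞) ^ 2 * (m : ℝ≥0∞) ^ 2 * (t : ℝ≥0∞) ^ 3 * G * (1 + t * G) := by
  obtain ⟨n, rfl⟩ : ∃ n, m = n + 1 := ⟨m - 1, by omega⟩
  have : NeZero k := ⟨by omega⟩
  have : NeZero t := ⟨by omega⟩
  have hprob : ∀ (b : Fin k × Fin (n + 1)) s, IsProbabilityMeasure (P.map (w b.1 b.2 s)) :=
    fun b s => Measure.isProbabilityMeasure_map (hw b.1 b.2 s).aemeasurable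
  have hν : ∀ (b : Fin k × Fin (n + 1)) s, ∃ B : ℝ≥0,
      P.map (w b.1 b.2 s) ≤ (B : ℝ≥0∞) • (volume : Measure ℝ) ∧
      (B : ℝ≥0∞) * ∫⁻ x, ‖x‖ₑ ∂(P.map (w b.1 b.2 s)) ≤ G := by
    intro b s
    obtain ⟨B, h1, h2⟩ := hG b.1 b.2 s
    refine ⟨B, h1, ?_⟩
    rw [lintegral_map measurable_enorm (hw _ _ _)]
    exact h2
  have hJ : Measurable fun ω => fun (b : Fin k × Fin (n + 1)) (s : Fin t) => w b.1 b.2 s ω :=
    measurable_pi_lambda _ fun b => measurable_pi_lambda _ fun s => hw b.1 b.2 s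
  have key : ∀ c : Fin k × Fin (n + 1) → Fin t → ℝ, (∀ b s, c b s ≠ 0) →
      ∫⁻ ω, (({y : ℝ | FF c (fun b s => (e b.1 b.2 s : ℝ)) (fun b s => w b.1 b.2 s ω) y =
        0}.encard : ℕ∞) : ℝ≥0∞) ∂P ≤
      66 * (k : ℝ≥0∞) ^ 2 * ((n : ℝ≥0∞) + 1) ^ 2 * (t : ℝ≥0∞) ^ 3 * G * (1 + t * G) := by
    intro c hc
    have h := main_law hc (a := fun b s => (e b.1 b.2 s : ℝ))
      (fun b s => P.map (w b.1 b.2 s)) G hν
    rw [← joint_law P w hw hind, lintegral_map (measurable_count _ _) hJ] at h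
    exact h
  calc ∫⁻ ω, (({x : ℝ | ev e (fun i j s => w i j s ω) x = 0}.encard : ℕ∞) : ℝ≥0∞) ∂P
      ≤ ∫⁻ ω, (1 + ((({y : ℝ | FF (fun _ _ => 1) (fun b s => (e b.1 b.2 s : ℝ))
        (fun b s => w b.1 b.2 s ω) y = 0}.encard : ℕ∞) : ℝ≥0∞) +
      (({y : ℝ | FF (fun b s => (-1) ^ e b.1 b.2 s) (fun b s => (e b.1 b.2 s : ℝ))
        (fun b s => w b.1 b.2 s ω) y = 0}.encard : ℕ∞) : ℝ≥0∞))) ∂P :=
        lintegral_mono fun ω => count_ev_le e fun i j s => w i j s ω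
    _ = 1 + (∫⁻ ω, (({y : ℝ | FF (fun _ _ => 1) (fun b s => (e b.1 b.2 s : ℝ))
        (fun b s => w b.1 b.2 s ω) y = 0}.encard : ℕ∞) : ℝ≥0∞) ∂P +
      ∫⁻ ω, (({y : ℝ | FF (fun b s => (-1) ^ e b.1 b.2 s) (fun b s => (e b.1 b.2 s : ℝ))
        (fun b s => w b.1 b.2 s ω) y = 0}.encard : ℕ∞) : ℝ≥0∞) ∂P) := by
        have hc1 : Measurable fun ω => (({y : ℝ | FF (fun _ _ => 1)
            (fun b s => (e b.1 b.2 s : ℝ)) (fun b s => w b.1 b.2 s ω) y = 0}.encard :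
            ℕ∞) : ℝ≥0∞) := (measurable_count _ _).comp hJ
        rw [lintegral_add_left measurable_const, lintegral_const, measure_univ, mul_one,
          lintegral_add_left hc1]
    _ ≤ 1 + (66 * (k : ℝ≥0∞) ^ 2 * ((n : ℝ≥0∞) + 1) ^ 2 * (t : ℝ≥0∞) ^ 3 * G * (1 + t * G) +
        66 * (k : ℝ≥0∞) ^ 2 * ((n : ℝ≥0∞) + 1) ^ 2 * (t : ℝ≥0∞) ^ 3 * G * (1 + t * G)) := by
        gcongr
        · exact key _ fun _ _ => one_ne_zero
        · exact key _ fun _ _ => pow_ne_zero _ (by norm_num)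
    _ = 1 + 132 * (k : ℝ≥0∞) ^ 2 * ((n + 1 : ℕ) : ℝ≥0∞) ^ 2 * (t : ℝ≥0∞) ^ 3 * G *
        (1 + t * G) := by
        push_cast
        ring

end asm6

end Pool.Agent.T9h20.TA
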