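import Pool.Agent.T9h20.TA.Asm6

/-!
# The smoothed real tau-conjecture: uniform noise
-/

set_option autoImplicit false

open MeasureTheory Set ProbabilityTheory
open scoped ENNReal NNReal

namespace Pool.Agent.T9h20.TA

section asm7

/-- Law and first moment of `a + τ * ξ`, `ξ` uniform on `[-1, 1]`. -/
theorem noise {Ω : Type*} [MeasurableSpace Ω] (P : Measure Ω) [IsProbabilityMeasure P]
    (ξ : Ω → ℝ) (hξ : Measurable ξ)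
    (hlaw : P.map ξ = (2 : ℝ≥0∞)⁻¹ • (volume : Measure ℝ).restrict (Set.Icc (-1) 1))
    (a τ : ℝ) (hτ : 0 < τ) (R : ℝ≥0) (ha : |a| ≤ R * τ) :
    ∃ B : ℝ≥0, P.map (fun ω => a + τ * ξ ω) ≤ (B : ℝ≥0∞) • (volume : Measure ℝ) ∧
      (B : ℝ≥0∞) * ∫⁻ ω, ‖a + τ * ξ ω‖ₑ ∂P ≤ ((R + 1) / 2 : ℝ≥0) := by
  have hτ0 : τ ≠ 0 := hτ.ne'
  have hf : Measurable fun x : ℝ => a + τ * x := by fun_prop
  have hmap : P.map (fun ω => a + τ * ξ ω) = (P.map ξ).map fun x => a + τ * x := by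
    rw [Measure.map_map hf hξ]
    rfl
  have hle : P.map ξ ≤ (2 : ℝ≥0∞)⁻¹ • (volume : Measure ℝ) := by
    rw [hlaw]
    refine Measure.le_iff.mpr fun S _ => ?_
    rw [Measure.smul_apply, Measure.smul_apply, smul_eq_mul, smul_eq_mul]
    gcongr
    exact Measure.restrict_le_self
  have hvol : (volume : Measure ℝ).map (fun x => a + τ * x) =
      ENNReal.ofReal |τ⁻¹| • (volume : Measure ℝ) := by
    have h1 : (fun x : ℝ => a + τ * x) = (fun x => a + x) ∘ fun x => τ * x := rfl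
    rw [h1, ← Measure.map_map (measurable_const_add a) (measurable_const_mul τ),
      Real.map_volume_mul_left hτ0, Measure.map_smul, map_add_left_eq_self]
  refine ⟨(2 : ℝ≥0)⁻¹ * Real.toNNReal |τ⁻¹|, ?_, ?_⟩
  · rw [hmap]
    refine (Measure.map_mono hle hf).trans (le_of_eq ?_)
    rw [Measure.map_smul, hvol, smul_smul, ENNReal.coe_mul, ENNReal.coe_inv (by norm_num)]
    rfl
  · have hint : ∫⁻ ω, ‖a + τ * ξ ω‖ₑ ∂P ≤ ENNReal.ofReal (|a| + τ) := by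
      have h1 : ∫⁻ ω, ‖a + τ * ξ ω‖ₑ ∂P = ∫⁻ x, ‖a + τ * x‖ₑ ∂(P.map ξ) := by
        rw [lintegral_map (by fun_prop) hξ]
      rw [h1, hlaw, lintegral_smul_measure, smul_eq_mul]
      have h2 : ∫⁻ x in Set.Icc (-1 : ℝ) 1, ‖a + τ * x‖ₑ ≤
          ∫⁻ _x in Set.Icc (-1 : ℝ) 1, ENNReal.ofReal (|a| + τ) := by
        refine setLIntegral_mono measurable_const fun x hx => ?_
        rw [Real.enorm_eq_ofReal_abs]
        refine ENNReal.ofReal_le_ofReal ((abs_add_le _ _).trans ?_)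
        rw [abs_mul, abs_of_pos hτ]
        have : |x| ≤ 1 := abs_le.mpr hx
        nlinarith
      rw [setLIntegral_const, Real.volume_Icc] at h2
      calc (2 : ℝ≥0∞)⁻¹ * ∫⁻ x in Set.Icc (-1 : ℝ) 1, ‖a + τ * x‖ₑ
          ≤ (2 : ℝ≥0∞)⁻¹ * (ENNReal.ofReal (|a| + τ) * ENNReal.ofReal (1 - -1)) := by gcongr
        _ = ENNReal.ofReal (|a| + τ) := by
            have h3 : ENNReal.ofReal (1 - -1) = 2 := by norm_num
            rw [h3, mul_comm (ENNReal.ofReal (|a| + τ)), ← mul_assoc,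
              ENNReal.inv_mul_cancel (by norm_num) (by norm_num), one_mul]
    calc (((2 : ℝ≥0)⁻¹ * Real.toNNReal |τ⁻¹| : ℝ≥0) : ℝ≥0∞) * ∫⁻ ω, ‖a + τ * ξ ω‖ₑ ∂P
        ≤ (((2 : ℝ≥0)⁻¹ * Real.toNNReal |τ⁻¹| : ℝ≥0) : ℝ≥0∞) *
          ENNReal.ofReal (|a| + τ) := by gcongr
      _ ≤ ((R + 1) / 2 : ℝ≥0) := by
          rw [ENNReal.ofReal, ← ENNReal.coe_mul, ENNReal.coe_le_coe, ← NNReal.coe_le_coe]
          push_cast
          rw [Real.coe_toNNReal _ (abs_nonneg _),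
            Real.coe_toNNReal _ (add_nonneg (abs_nonneg _) hτ.le), abs_of_pos (inv_pos.mpr hτ)]
          have h5 : τ⁻¹ * (|a| + τ) ≤ R + 1 := by
            rw [inv_mul_le_iff₀ hτ]
            nlinarith
          linarith

/-- The numerical bound. -/
theorem num2 (k m t : ℕ) (ht : 1 ≤ t) (R : ℝ≥0) :
    (1 : ℝ≥0∞) + 132 * (k : ℝ≥0∞) ^ 2 * (m : ℝ≥0∞) ^ 2 * (t : ℝ≥0∞) ^ 3 *
        (((R + 1) / 2 : ℝ≥0) : ℝ≥0∞) * (1 + t * (((R + 1) / 2 : ℝ≥0) : ℝ≥0∞)) ≤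
      1 + 99 * (k : ℝ≥0∞) ^ 2 * (m : ℝ≥0∞) ^ 2 * (t : ℝ≥0∞) ^ 4 * ((R : ℝ≥0∞) + 1) ^ 2 := by
  have h : (1 : ℝ≥0) + 132 * (k : ℝ≥0) ^ 2 * (m : ℝ≥0) ^ 2 * (t : ℝ≥0) ^ 3 *
        ((R + 1) / 2) * (1 + t * ((R + 1) / 2)) ≤
      1 + 99 * (k : ℝ≥0) ^ 2 * (m : ℝ≥0) ^ 2 * (t : ℝ≥0) ^ 4 * (R + 1) ^ 2 := by
    rw [← NNReal.coe_le_coe]
    push_cast
    have hR : (0 : ℝ) ≤ R := R.2
    have ht' : (1 : ℝ) ≤ t := by exact_mod_cast ht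
    have h1 : (1 : ℝ) + t * ((R + 1) / 2) ≤ 3 * t * ((R + 1) / 2) := by
      nlinarith [mul_nonneg (by linarith : (0 : ℝ) ≤ (t : ℝ) - 1) hR]
    have h2 : 132 * (k : ℝ) ^ 2 * (m : ℝ) ^ 2 * (t : ℝ) ^ 3 * ((R + 1) / 2) *
        (1 + t * ((R + 1) / 2)) ≤ 132 * (k : ℝ) ^ 2 * (m : ℝ) ^ 2 * (t : ℝ) ^ 3 *
        ((R + 1) / 2) * (3 * t * ((R + 1) / 2)) := by
      gcongr
    have h3 : 132 * (k : ℝ) ^ 2 * (m : ℝ) ^ 2 * (t : ℝ) ^ 3 *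
        ((R + 1) / 2) * (3 * t * ((R + 1) / 2)) =
        99 * (k : ℝ) ^ 2 * (m : ℝ) ^ 2 * (t : ℝ) ^ 4 * (R + 1) ^ 2 := by ring
    linarith
  have h' := ENNReal.coe_le_coe.mpr h
  push_cast at h' ⊢
  exact h'

variable {k m t : ℕ}

/-- Smoothed version. -/
theorem smooth_ev {Ω : Type*} [MeasurableSpace Ω] (P : Measure Ω) [IsProbabilityMeasure P]
    (hk : 1 ≤ k) (hm : 1 ≤ m) (ht : 1 ≤ t) (e : Fin k → Fin m → Fin t → ℕ)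
    (a τ : Fin k → Fin m → Fin t → ℝ) (R : ℝ≥0) (hτ : ∀ i j s, 0 < τ i j s)
    (ha : ∀ i j s, |a i j s| ≤ R * τ i j s)
    (ξ : Fin k → Fin m → Fin t → Ω → ℝ) (hξ : ∀ i j s, Measurable (ξ i j s))
    (hind : iIndepFun (fun q : Fin k × Fin m × Fin t => ξ q.1 q.2.1 q.2.2) P)
    (hlaw : ∀ i j s, P.map (ξ i j s) =
      (2 : ℝ≥0∞)⁻¹ • (volume : Measure ℝ).restrict (Set.Icc (-1) 1)) :
    ∫⁻ ω, (({x : ℝ | ev e (fun i j s => a i j s + τ i j s * ξ i j s ω) x = 0}.encard :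
        ℕ∞) : ℝ≥0∞) ∂P ≤
      1 + 99 * (k : ℝ≥0∞) ^ 2 * (m : ℝ≥0∞) ^ 2 * (t : ℝ≥0∞) ^ 4 * ((R : ℝ≥0∞) + 1) ^ 2 := by
  refine (main_ev P hk hm ht e (fun i j s ω => a i j s + τ i j s * ξ i j s ω)
    (fun i j s => by have := hξ i j s; fun_prop) ?_ ((R + 1) / 2)
    (fun i j s => noise P (ξ i j s) (hξ i j s) (hlaw i j s) (a i j s) (τ i j s) (hτ i j s) R
      (ha i j s))).trans (num2 k m t ht R)
  exact hind.comp (fun q x => a q.1 q.2.1 q.2.2 + τ q.1 q.2.1 q.2.2 * x)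
    (fun q => by fun_prop)

end asm7

end Pool.Agent.T9h20.TA
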