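import Pool.Agent.T9h20.TA.Spec

/-!
# The smoothed real tau-conjecture: basic facts
-/

set_option autoImplicit false

open MeasureTheory Set
open scoped ENNReal NNReal

namespace Pool.Agent.T9h20.TA

section block

variable {t : ℕ}

theorem mon_ne {c a : Fin t → ℝ} {s : Fin t} (h : c s ≠ 0) (y : ℝ) : mon c a s y ≠ 0 :=
  mul_ne_zero h (Real.exp_pos _).ne'

theorem hasDerivAt_mon (c a : Fin t → ℝ) (s : Fin t) (y : ℝ) :
    HasDerivAt (mon c a s) (a s * mon c a s y) y := by
  have h : HasDerivAt (fun y => a s * y) (a s) y := by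
    simpa using (hasDerivAt_id y).const_mul (a s)
  have h2 := (h.exp).const_mul (c s)
  refine h2.congr_deriv ?_
  unfold mon
  ring

theorem continuous_mon (c a : Fin t → ℝ) (s : Fin t) : Continuous (mon c a s) := by
  unfold mon
  fun_prop

theorem hasDerivAt_fn (c a v : Fin t → ℝ) (y : ℝ) :
    HasDerivAt (fn c a v) (dfn c a v y) y := by
  unfold fn dfn
  exact HasDerivAt.fun_sum fun s _ => (hasDerivAt_mon c a s y).const_mul (v s)

theorem sel_unique [NeZero t] {c a : Fin t → ℝ} {y : ℝ} {s : Fin t} (h : IsSel c a y s) :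
    sel c a y = s := by
  have h1 := isSel_sel c a y
  rcases lt_trichotomy (sel c a y) s with h2 | h2 | h2
  · exact absurd (h1.1 s) (not_le.mpr (h.2 _ h2))
  · exact h2
  · exact absurd (h.1 (sel c a y)) (not_le.mpr (h1.2 _ h2))

theorem mx_pos [NeZero t] {c a : Fin t → ℝ} (hc : ∀ s, c s ≠ 0) (y : ℝ) : 0 < mx c a y :=
  abs_pos.mpr (mon_ne (hc _) y)

theorem mon_le_mx [NeZero t] (c a : Fin t → ℝ) (s : Fin t) (y : ℝ) : |mon c a s y| ≤ mx c a y :=
  (isSel_sel c a y).1 s

theorem abs_gg_le [NeZero t] {c a : Fin t → ℝ} (hc : ∀ s, c s ≠ 0) (s : Fin t) (y : ℝ) :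
    |gg c a s y| ≤ 1 := by
  unfold gg
  rw [abs_div, abs_of_pos (mx_pos hc y), div_le_one (mx_pos hc y)]
  exact mon_le_mx c a s y

theorem abs_gg_sel [NeZero t] {c a : Fin t → ℝ} (hc : ∀ s, c s ≠ 0) (y : ℝ) :
    |gg c a (sel c a y) y| = 1 := by
  unfold gg
  rw [abs_div, abs_of_pos (mx_pos hc y)]
  exact div_self (mx_pos hc y).ne'

theorem hh_sel [NeZero t] (c a : Fin t → ℝ) (y : ℝ) : hh c a (sel c a y) y = 0 := by
  unfold hh ta
  simp

theorem fn_eq [NeZero t] {c a : Fin t → ℝ} (hc : ∀ s, c s ≠ 0) (v : Fin t → ℝ) (y : ℝ) :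
    fn c a v y = mx c a y * ∑ s, v s * gg c a s y := by
  unfold fn gg
  rw [Finset.mul_sum]
  refine Finset.sum_congr rfl fun s _ => ?_
  have := (mx_pos (a := a) hc y).ne'
  field_simp

theorem dfn_eq [NeZero t] {c a : Fin t → ℝ} (hc : ∀ s, c s ≠ 0) (v : Fin t → ℝ) (y : ℝ) :
    dfn c a v y = ta c a y * fn c a v y + mx c a y * ∑ s, v s * hh c a s y := by
  unfold fn dfn hh gg
  rw [Finset.mul_sum, Finset.mul_sum, ← Finset.sum_add_distrib]
  refine Finset.sum_congr rfl fun s _ => ?_
  have := (mx_pos (a := a) hc y).ne'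
  field_simp
  ring

theorem dfn_div [NeZero t] {c a : Fin t → ℝ} (hc : ∀ s, c s ≠ 0) {v : Fin t → ℝ} {y : ℝ}
    (h : fn c a v y ≠ 0) :
    dfn c a v y / fn c a v y = ta c a y +
      (∑ s, v s * hh c a s y) / (∑ s, v s * gg c a s y) := by
  have h0 := (mx_pos (a := a) hc y).ne'
  have h1 : (∑ s, v s * gg c a s y) ≠ 0 := by
    intro h2
    exact h (by rw [fn_eq hc, h2, mul_zero])
  rw [dfn_eq hc, add_div, mul_div_assoc, div_self h, mul_one, fn_eq hc, mul_div_mul_left _ _ h0]

theorem continuous_mx [NeZero t] (c a : Fin t → ℝ) : Continuous (mx c a) := by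
  have h : mx c a = fun y => Finset.univ.sup' ⟨0, Finset.mem_univ 0⟩ fun s => |mon c a s y| := by
    funext y
    refine le_antisymm ?_ ?_
    · exact Finset.le_sup' (fun s => |mon c a s y|) (Finset.mem_univ (sel c a y))
    · exact Finset.sup'_le _ _ fun s _ => mon_le_mx c a s y
  rw [h]
  exact Continuous.finset_sup'_apply _ fun s _ => (continuous_mon c a s).abs

theorem measurable_sel [NeZero t] (c a : Fin t → ℝ) : Measurable (sel c a) := by
  refine measurable_to_countable' fun s => ?_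
  have h : sel c a ⁻¹' {s} = {y | ∀ r, |mon c a r y| ≤ |mon c a s y|} ∩
      {y | ∀ r, r < s → |mon c a r y| < |mon c a s y|} := by
    ext y
    constructor
    · rintro rfl
      exact isSel_sel c a y
    · intro h
      exact sel_unique h
  rw [h]
  refine MeasurableSet.inter ?_ ?_
  · simp only [Set.setOf_forall]
    exact MeasurableSet.iInter fun r => measurableSet_le (continuous_mon c a r).abs.measurable
      (continuous_mon c a s).abs.measurable
  · simp only [Set.setOf_forall]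
    exact MeasurableSet.iInter fun r => MeasurableSet.iInter fun _ =>
      measurableSet_lt (continuous_mon c a r).abs.measurable (continuous_mon c a s).abs.measurable

theorem measurable_ta [NeZero t] (c a : Fin t → ℝ) : Measurable (ta c a) :=
  (measurable_of_finite a).comp (measurable_sel c a)

theorem measurable_gg [NeZero t] (c a : Fin t → ℝ) (s : Fin t) : Measurable (gg c a s) :=
  (continuous_mon c a s).measurable.div (continuous_mx c a).measurable

theorem measurable_hh [NeZero t] (c a : Fin t → ℝ) (s : Fin t) : Measurable (hh c a s) :=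
  (measurable_const.sub (measurable_ta c a)).mul (measurable_gg c a s)

theorem measurable_kap [NeZero t] (c a : Fin t → ℝ) : Measurable (kap c a) := by
  unfold kap
  exact Finset.measurable_sum _ fun s _ => (measurable_hh c a s).enorm

/-- First moment of a linear form. -/
theorem lintegral_lin (μ : Fin t → Measure ℝ) [∀ s, IsProbabilityMeasure (μ s)] (A : ℝ≥0)
    (hA : ∀ s, ∫⁻ x, ‖x‖ₑ ∂(μ s) ≤ A) (h : Fin t → ℝ) :
    ∫⁻ v, ‖∑ s, v s * h s‖ₑ ∂(Measure.pi μ) ≤ A * ∑ s, ‖h s‖ₑ := by
  calc ∫⁻ v, ‖∑ s, v s * h s‖ₑ ∂(Measure.pi μ)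
      ≤ ∫⁻ v, ∑ s, ‖v s‖ₑ * ‖h s‖ₑ ∂(Measure.pi μ) := by
        refine lintegral_mono fun v => ?_
        refine (enorm_sum_le _ _).trans (Finset.sum_le_sum fun s _ => ?_)
        rw [enorm_mul]
    _ = ∑ s, ∫⁻ v, ‖v s‖ₑ * ‖h s‖ₑ ∂(Measure.pi μ) := by
        refine lintegral_finsetSum _ fun s _ => ?_
        exact (measurable_pi_apply s).enorm.mul_const _
    _ ≤ ∑ s, A * ‖h s‖ₑ := by
        refine Finset.sum_le_sum fun s _ => ?_
        rw [lintegral_mul_const _ (measurable_pi_apply s).enorm]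
        gcongr
        have := (measurePreserving_eval μ s).lintegral_comp
          (f := fun x : ℝ => ‖x‖ₑ) measurable_enorm
        exact this.trans_le (hA s)
    _ = A * ∑ s, ‖h s‖ₑ := by rw [Finset.mul_sum]

end block

end Pool.Agent.T9h20.TA
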