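import Pool.Agent.T9h20.TA.Basic

/-!
# The smoothed real tau-conjecture: sums of products
-/

set_option autoImplicit false

open MeasureTheory Set
open scoped ENNReal NNReal

namespace Pool.Agent.T9h20.TA

section glob

variable {k m t : ℕ}

/-- The sum of `k` products of `m + 1` factors. -/
noncomputable def FF (c a v : Fin k × Fin (m + 1) → Fin t → ℝ) (y : ℝ) : ℝ :=
  ∑ i, ∏ j, fn (c (i, j)) (a (i, j)) (v (i, j)) y

/-- The product of the factors `j ≥ 1` of the product `i`. -/
noncomputable def PR (c a v : Fin k × Fin (m + 1) → Fin t → ℝ) (i : Fin k) (y : ℝ) : ℝ :=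
  ∏ j : Fin m, fn (c (i, j.succ)) (a (i, j.succ)) (v (i, j.succ)) y

/-- Its derivative. -/
noncomputable def dPR (c a v : Fin k × Fin (m + 1) → Fin t → ℝ) (i : Fin k) (y : ℝ) : ℝ :=
  ∑ j : Fin m, (∏ r ∈ Finset.univ.erase j, fn (c (i, r.succ)) (a (i, r.succ)) (v (i, r.succ)) y) *
    dfn (c (i, j.succ)) (a (i, j.succ)) (v (i, j.succ)) y

/-- The derivative of `FF`. -/
noncomputable def dFF (c a v : Fin k × Fin (m + 1) → Fin t → ℝ) (y : ℝ) : ℝ :=
  ∑ i, (dfn (c (i, 0)) (a (i, 0)) (v (i, 0)) y * PR c a v i y +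
    fn (c (i, 0)) (a (i, 0)) (v (i, 0)) y * dPR c a v i y)

theorem FF_eq (c a v : Fin k × Fin (m + 1) → Fin t → ℝ) (y : ℝ) :
    FF c a v y = ∑ i, fn (c (i, 0)) (a (i, 0)) (v (i, 0)) y * PR c a v i y := by
  unfold FF PR
  refine Finset.sum_congr rfl fun i _ => ?_
  rw [Fin.prod_univ_succ]

theorem hasDerivAt_PR (c a v : Fin k × Fin (m + 1) → Fin t → ℝ) (i : Fin k) (y : ℝ) :
    HasDerivAt (PR c a v i) (dPR c a v i y) y := by
  have h := HasDerivAt.fun_finset_prod (u := (Finset.univ : Finset (Fin m)))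
    (f := fun j : Fin m => fn (c (i, j.succ)) (a (i, j.succ)) (v (i, j.succ)))
    (f' := fun j : Fin m => dfn (c (i, j.succ)) (a (i, j.succ)) (v (i, j.succ)) y) (x := y)
    fun j _ => hasDerivAt_fn _ _ _ _
  refine h.congr_deriv ?_
  unfold dPR
  simp only [smul_eq_mul]

theorem hasDerivAt_FF (c a v : Fin k × Fin (m + 1) → Fin t → ℝ) (y : ℝ) :
    HasDerivAt (FF c a v) (dFF c a v y) y := by
  have h : FF c a v = fun y => ∑ i, fn (c (i, 0)) (a (i, 0)) (v (i, 0)) y * PR c a v i y := by
    funext y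
    exact FF_eq c a v y
  rw [h]
  unfold dFF
  exact HasDerivAt.fun_sum fun i _ => (hasDerivAt_fn _ _ _ _).mul (hasDerivAt_PR c a v i y)

theorem continuous_fn₂ (c a : Fin k × Fin (m + 1) → Fin t → ℝ) (b : Fin k × Fin (m + 1)) :
    Continuous fun p : (Fin k × Fin (m + 1) → Fin t → ℝ) × ℝ =>
      fn (c b) (a b) (p.1 b) p.2 := by
  unfold fn
  refine continuous_finset_sum _ fun s _ => ?_
  refine Continuous.mul ?_ ((continuous_mon _ _ s).comp continuous_snd)
  exact (continuous_apply s).comp ((continuous_apply b).comp continuous_fst)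

theorem continuous_dfn₂ (c a : Fin k × Fin (m + 1) → Fin t → ℝ) (b : Fin k × Fin (m + 1)) :
    Continuous fun p : (Fin k × Fin (m + 1) → Fin t → ℝ) × ℝ =>
      dfn (c b) (a b) (p.1 b) p.2 := by
  unfold dfn
  refine continuous_finset_sum _ fun s _ => ?_
  refine Continuous.mul ?_ (((continuous_mon _ _ s).comp continuous_snd).const_mul _)
  exact (continuous_apply s).comp ((continuous_apply b).comp continuous_fst)

theorem continuous_PR₂ (c a : Fin k × Fin (m + 1) → Fin t → ℝ) (i : Fin k) :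
    Continuous fun p : (Fin k × Fin (m + 1) → Fin t → ℝ) × ℝ => PR c a p.1 i p.2 := by
  unfold PR
  exact continuous_finset_prod _ fun j _ => continuous_fn₂ c a (i, j.succ)

theorem continuous_dPR₂ (c a : Fin k × Fin (m + 1) → Fin t → ℝ) (i : Fin k) :
    Continuous fun p : (Fin k × Fin (m + 1) → Fin t → ℝ) × ℝ => dPR c a p.1 i p.2 := by
  unfold dPR
  refine continuous_finset_sum _ fun j _ => ?_
  exact (continuous_finset_prod _ fun r _ => continuous_fn₂ c a (i, r.succ)).mul
    (continuous_dfn₂ c a (i, j.succ))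

theorem continuous_FF₂ (c a : Fin k × Fin (m + 1) → Fin t → ℝ) :
    Continuous fun p : (Fin k × Fin (m + 1) → Fin t → ℝ) × ℝ => FF c a p.1 p.2 := by
  unfold FF
  exact continuous_finset_sum _ fun i _ => continuous_finset_prod _ fun j _ =>
    continuous_fn₂ c a (i, j)

theorem continuous_dFF₂ (c a : Fin k × Fin (m + 1) → Fin t → ℝ) :
    Continuous fun p : (Fin k × Fin (m + 1) → Fin t → ℝ) × ℝ => dFF c a p.1 p.2 := by
  unfold dFF
  refine continuous_finset_sum _ fun i _ => ?_
  exact ((continuous_dfn₂ c a (i, 0)).mul (continuous_PR₂ c a i)).add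
    ((continuous_fn₂ c a (i, 0)).mul (continuous_dPR₂ c a i))

/-! ### Changing one coefficient -/

theorem upd_same (v : Fin k × Fin (m + 1) → Fin t → ℝ) (b : Fin k × Fin (m + 1)) (s : Fin t)
    (x : ℝ) : upd v b s x b = Function.update (v b) s x := by
  simp [upd]

theorem upd_ne {b b' : Fin k × Fin (m + 1)} (h : b' ≠ b)
    (v : Fin k × Fin (m + 1) → Fin t → ℝ) (s : Fin t) (x : ℝ) : upd v b s x b' = v b' := by
  simp [upd, h]

theorem upd_upd (v : Fin k × Fin (m + 1) → Fin t → ℝ) (b : Fin k × Fin (m + 1)) (s : Fin t)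
    (x x' : ℝ) : upd (upd v b s x) b s x' = upd v b s x' := by
  simp [upd]

theorem succ_ne (i l : Fin k) (j : Fin m) : ((l, j.succ) : Fin k × Fin (m + 1)) ≠ (i, 0) := by
  intro h
  exact Fin.succ_ne_zero j (Prod.ext_iff.mp h).2

theorem PR_upd (c a v : Fin k × Fin (m + 1) → Fin t → ℝ) (i l : Fin k) (s : Fin t) (x : ℝ) :
    PR c a (upd v (i, 0) s x) l = PR c a v l := by
  funext y
  unfold PR
  refine Finset.prod_congr rfl fun j _ => ?_
  rw [upd_ne (succ_ne i l j)]

theorem dPR_upd (c a v : Fin k × Fin (m + 1) → Fin t → ℝ) (i l : Fin k) (s : Fin t) (x : ℝ) :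
    dPR c a (upd v (i, 0) s x) l = dPR c a v l := by
  funext y
  unfold dPR
  refine Finset.sum_congr rfl fun j _ => ?_
  rw [upd_ne (succ_ne i l j)]
  congr 1
  refine Finset.prod_congr rfl fun r _ => ?_
  rw [upd_ne (succ_ne i l r)]

theorem fn_update (c a v : Fin t → ℝ) (s : Fin t) (x y : ℝ) :
    fn c a (Function.update v s x) y = fn c a v y + (x - v s) * mon c a s y := by
  unfold fn
  rw [← Finset.add_sum_erase _ _ (Finset.mem_univ s),
    ← Finset.add_sum_erase (Finset.univ) (fun r => v r * mon c a r y) (Finset.mem_univ s)]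
  simp only [Function.update_self]
  have : ∑ r ∈ Finset.univ.erase s, Function.update v s x r * mon c a r y =
      ∑ r ∈ Finset.univ.erase s, v r * mon c a r y := by
    refine Finset.sum_congr rfl fun r hr => ?_
    rw [Function.update_of_ne (Finset.ne_of_mem_erase hr)]
  rw [this]
  ring

theorem dfn_update (c a v : Fin t → ℝ) (s : Fin t) (x y : ℝ) :
    dfn c a (Function.update v s x) y = dfn c a v y + (x - v s) * (a s * mon c a s y) := by
  unfold dfn
  rw [← Finset.add_sum_erase _ _ (Finset.mem_univ s),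
    ← Finset.add_sum_erase (Finset.univ) (fun r => v r * (a r * mon c a r y)) (Finset.mem_univ s)]
  simp only [Function.update_self]
  have : ∑ r ∈ Finset.univ.erase s, Function.update v s x r * (a r * mon c a r y) =
      ∑ r ∈ Finset.univ.erase s, v r * (a r * mon c a r y) := by
    refine Finset.sum_congr rfl fun r hr => ?_
    rw [Function.update_of_ne (Finset.ne_of_mem_erase hr)]
  rw [this]
  ring

theorem FF_upd (c a v : Fin k × Fin (m + 1) → Fin t → ℝ) (i : Fin k) (s : Fin t) (x y : ℝ) :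
    FF c a (upd v (i, 0) s x) y = FF c a v y +
      (x - v (i, 0) s) * (mon (c (i, 0)) (a (i, 0)) s y * PR c a v i y) := by
  rw [FF_eq, FF_eq, ← Finset.add_sum_erase _ _ (Finset.mem_univ i),
    ← Finset.add_sum_erase (Finset.univ) (fun l => fn (c (l, 0)) (a (l, 0)) (v (l, 0)) y *
      PR c a v l y) (Finset.mem_univ i)]
  have h1 : ∑ l ∈ Finset.univ.erase i, fn (c (l, 0)) (a (l, 0)) (upd v (i, 0) s x (l, 0)) y *
      PR c a (upd v (i, 0) s x) l y =
      ∑ l ∈ Finset.univ.erase i, fn (c (l, 0)) (a (l, 0)) (v (l, 0)) y * PR c a v l y := by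
    refine Finset.sum_congr rfl fun l hl => ?_
    have hne : ((l, 0) : Fin k × Fin (m + 1)) ≠ (i, 0) := by
      intro h
      exact Finset.ne_of_mem_erase hl (Prod.ext_iff.mp h).1
    rw [upd_ne hne, PR_upd]
  rw [h1, PR_upd, upd_same, fn_update]
  ring

end glob

end Pool.Agent.T9h20.TA
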