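import Mathlib

/-!
# The smoothed real tau-conjecture: definitions and pieces

`F(y) = ∑ i, ∏ j, ∑ s, v_(ijs) c_(ijs) exp (a_(ijs) y)` with `c ≠ 0` and `a` arbitrary real numbers
and `v_(ijs)` independent random variables with densities at most `B` and `E |v| ≤ A`.
A block `b = (i, j)` is one factor; its coefficients are `v b : Fin t → ℝ`.
All pieces are independent of each other.
-/

set_option autoImplicit false

open MeasureTheory Set
open scoped ENNReal NNReal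

namespace Pool.Agent.T9h20.TA

/-- The term `c s * exp (a s * y)`. -/
noncomputable def mon {t : ℕ} (c a : Fin t → ℝ) (s : Fin t) (y : ℝ) : ℝ :=
  c s * Real.exp (a s * y)

/-- One factor with coefficients `v`. -/
noncomputable def fn {t : ℕ} (c a v : Fin t → ℝ) (y : ℝ) : ℝ := ∑ s, v s * mon c a s y

/-- The derivative of one factor. -/
noncomputable def dfn {t : ℕ} (c a v : Fin t → ℝ) (y : ℝ) : ℝ := ∑ s, v s * (a s * mon c a s y)

/-- `s` is the first index with a term of maximal absolute value at `y`. -/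
def IsSel {t : ℕ} (c a : Fin t → ℝ) (y : ℝ) (s : Fin t) : Prop :=
  (∀ r, |mon c a r y| ≤ |mon c a s y|) ∧ ∀ r, r < s → |mon c a r y| < |mon c a s y|

theorem exists_isSel {t : ℕ} [NeZero t] (c a : Fin t → ℝ) (y : ℝ) : ∃ s, IsSel c a y s := by
  classical
  obtain ⟨s1, -, h1⟩ := Finset.exists_max_image Finset.univ (fun s => |mon c a s y|)
    ⟨0, Finset.mem_univ 0⟩
  have hne : (Finset.univ.filter fun s => ∀ r, |mon c a r y| ≤ |mon c a s y|).Nonempty :=
    ⟨s1, by simpa using fun r => h1 r (Finset.mem_univ r)⟩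
  refine ⟨_, (Finset.mem_filter.mp (Finset.min'_mem _ hne)).2, fun r hr => ?_⟩
  by_contra hcon
  push Not at hcon
  have hmem : r ∈ Finset.univ.filter fun s => ∀ r, |mon c a r y| ≤ |mon c a s y| := by
    refine Finset.mem_filter.mpr ⟨Finset.mem_univ r, fun q => ?_⟩
    exact ((Finset.mem_filter.mp (Finset.min'_mem _ hne)).2 q).trans hcon
  exact absurd (Finset.min'_le _ r hmem) (not_le.mpr hr)

/-- The first index with a term of maximal absolute value at `y`. -/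
noncomputable def sel {t : ℕ} [NeZero t] (c a : Fin t → ℝ) (y : ℝ) : Fin t :=
  Classical.choose (exists_isSel c a y)

theorem isSel_sel {t : ℕ} [NeZero t] (c a : Fin t → ℝ) (y : ℝ) : IsSel c a y (sel c a y) :=
  Classical.choose_spec (exists_isSel c a y)

/-- The maximal absolute value of a term. -/
noncomputable def mx {t : ℕ} [NeZero t] (c a : Fin t → ℝ) (y : ℝ) : ℝ := |mon c a (sel c a y) y|

/-- Normalised terms, `|gg s| ≤ 1`, `|gg (sel)| = 1`. -/
noncomputable def gg {t : ℕ} [NeZero t] (c a : Fin t → ℝ) (s : Fin t) (y : ℝ) : ℝ :=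
  mon c a s y / mx c a y

/-- The exponent of the dominant term. -/
noncomputable def ta {t : ℕ} [NeZero t] (c a : Fin t → ℝ) (y : ℝ) : ℝ := a (sel c a y)

/-- Coefficients of `(f' - ta f) / mx`; `hh (sel) = 0`. -/
noncomputable def hh {t : ℕ} [NeZero t] (c a : Fin t → ℝ) (s : Fin t) (y : ℝ) : ℝ :=
  (a s - ta c a y) * gg c a s y

/-- `∑ s, |a s - ta| |gg s|`. -/
noncomputable def kap {t : ℕ} [NeZero t] (c a : Fin t → ℝ) (y : ℝ) : ℝ≥0∞ :=
  ∑ s, ‖hh c a s y‖ₑ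

/-- The product measure on the coefficients of all blocks. -/
noncomputable def PP {β : Type} [Fintype β] {t : ℕ} (μ : β → Fin t → Measure ℝ) :
    Measure (β → Fin t → ℝ) := Measure.pi fun b => Measure.pi (μ b)

/-- Change one coefficient. -/
def upd {β : Type} [DecidableEq β] {t : ℕ} (v : β → Fin t → ℝ) (b : β) (s : Fin t) (x : ℝ) :
    β → Fin t → ℝ := Function.update v b (Function.update (v b) s x)

/-! ## The pieces -/

/-- (A) One-dimensional area formula, inequality (Banach indicatrix). Proof: for the dyadic pieces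
`S ∩ [j/2^n, (j+1)/2^n)` the number of pieces whose image contains `x` tends to the number of
solutions (it is eventually at least any finite number of them); the volume of the image of a
piece is at most the integral of `|h'|` (Mathlib, Jacobian.lean,
`addHaar_image_le_lintegral_abs_det_fderiv`); use measurable hulls of the images and Fatou. -/
def SArea : Prop := ∀ (h h' : ℝ → ℝ) (S : Set ℝ), MeasurableSet S →
  (∀ y ∈ S, HasDerivAt h (h' y) y) →
    ∫⁻ x : ℝ, (({y | y ∈ S ∧ h y = x}.encard : ℕ∞) : ℝ≥0∞) ≤ ∫⁻ y in S, ‖h' y‖ₑ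

/-- (B) Measurability of section counts. Proof: `K ∩ U` is a countable union of compact sets,
so is its part over a half-open interval, so the projection of this part to `Ω` is measurable;
the number of points of a section is the limit (supremum) over `n` of the number of dyadic
intervals `[j/2^n, (j+1)/2^n)` which meet the section. -/
def SMeas : Prop := ∀ (Ω : Type) [MetricSpace Ω] [ProperSpace Ω] [MeasurableSpace Ω]
  [BorelSpace Ω] (K U : Set (Ω × ℝ)), IsClosed K → IsOpen U →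
    Measurable fun w : Ω => (({y : ℝ | (w, y) ∈ K ∧ (w, y) ∈ U}.encard : ℕ∞) : ℝ≥0∞)

/-- (C) Integrating out one coefficient (`lmarginal_singleton` twice, Marginal.lean). -/
def SCoord : Prop := ∀ (β : Type) [Fintype β] [DecidableEq β] (t : ℕ)
  (μ : β → Fin t → Measure ℝ) [∀ b s, IsProbabilityMeasure (μ b s)]
  (Φ : (β → Fin t → ℝ) → ℝ≥0∞), Measurable Φ → ∀ (b : β) (s : Fin t),
    ∫⁻ v, Φ v ∂(PP μ) = ∫⁻ v, ∫⁻ x, Φ (upd v b s x) ∂(μ b s) ∂(PP μ)

/-- (D) The block lemma: integrate out the coefficient `s0` first (it occurs only in the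
argument of `φ`, with coefficient `± 1`, so this costs at most `B ∫ φ`). -/
def SBlock : Prop := ∀ (t : ℕ) (μ : Fin t → Measure ℝ) [∀ s, IsProbabilityMeasure (μ s)]
  (A B : ℝ≥0), (∀ s, μ s ≤ (B : ℝ≥0∞) • (volume : Measure ℝ)) → (∀ s, ∫⁻ x, ‖x‖ₑ ∂(μ s) ≤ A) →
  ∀ (g h : Fin t → ℝ) (s0 : Fin t), |g s0| = 1 → h s0 = 0 → ∀ φ : ℝ → ℝ≥0∞, Measurable φ →
    ∫⁻ v, ‖∑ s, v s * h s‖ₑ * φ (∑ s, v s * g s) ∂(Measure.pi μ) ≤
      B * A * (∑ s, ‖h s‖ₑ) * ∫⁻ x, φ x

/-- (E) Moments of a normalised factor: first moment; small positive moments (Jensen);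
small negative moments (`E |ρ|^(-1/2) ≤ 1 + 4 B` since `ρ` has a density at most `B`, then
Jensen). -/
def SMom : Prop := ∀ (t : ℕ) (μ : Fin t → Measure ℝ) [∀ s, IsProbabilityMeasure (μ s)]
  (A B : ℝ≥0), (∀ s, μ s ≤ (B : ℝ≥0∞) • (volume : Measure ℝ)) → (∀ s, ∫⁻ x, ‖x‖ₑ ∂(μ s) ≤ A) →
  ∀ (g : Fin t → ℝ) (s0 : Fin t), |g s0| = 1 → (∀ s, |g s| ≤ 1) →
    (∫⁻ v, ‖∑ s, v s * g s‖ₑ ∂(Measure.pi μ) ≤ t * A) ∧
    (∀ θ : ℝ, 0 ≤ θ → θ ≤ 1 →
      ∫⁻ v, ‖∑ s, v s * g s‖ₑ ^ θ ∂(Measure.pi μ) ≤ ((t : ℝ≥0∞) * A) ^ θ) ∧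
    (∀ θ : ℝ, 0 ≤ θ → θ ≤ 1 / 2 →
      ∫⁻ v, ‖∑ s, v s * g s‖ₑ ^ (-θ) ∂(Measure.pi μ) ≤ (1 + 4 * (B : ℝ≥0∞)) ^ (2 * θ))

/-- (F) The integral of `kap`. Proof: `|a s - ta| |gg s|` is at most the sum over `r` of
`|a s - a r| * q_r(y)` over the set `q_r(y) ≤ 1`, `q_r(y) = |c s / c r| exp ((a s - a r) y)`;
each of these has integral at most one. -/
def SKap : Prop := ∀ (t : ℕ) [NeZero t] (c a : Fin t → ℝ), (∀ s, c s ≠ 0) →
  ∫⁻ y, kap c a y ≤ (t : ℝ≥0∞) ^ 2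

/-- (G) The drift integral. Proof: outside a finite set of at most `n t^2` points (the crossing
points of two terms with different exponents of the same block) the function
`∑ j, e j * log (mx j)` is affine on each complementary interval, with slope `∑ j, e j * ta j`;
an affine function `l` has `∫ |l'| exp (-θ |l|) ≤ 2 / θ`; a finite set of `N` points leaves
`N + 1` intervals (induction over order connected sets). -/
def SDrift : Prop := ∀ (n t : ℕ) [NeZero t] (c a : Fin n → Fin t → ℝ) (e : Fin n → ℝ) (θ : ℝ),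
  (∀ j s, c j s ≠ 0) → 0 < θ →
    ∫⁻ y, ENNReal.ofReal (|∑ j, e j * ta (c j) (a j) y| *
      Real.exp (-(θ * |∑ j, e j * Real.log (mx (c j) (a j) y)|))) ≤
      ENNReal.ofReal ((n * (t : ℝ) ^ 2 + 1) * (2 / θ))

/-- (H) The expectation for fixed `y`: `b0 = (l, 0)`, `L = {(l, j) : j ≥ 1}`,
`R = {(i, j) : j ≥ 1}`, `ρ b = ∑ s, v b s * g b s`, `η b = ∑ s, v b s * h b s`,
`Z = z ∏_L ρ / ∏_R ρ`. Proof: triangle inequality. Term `λ`: independence, first moment of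
`ρ b0`, and `|Z| 1(|Z| ≤ 1) ≤ |Z|^(± θ)` (sign + if `z ≤ 1`, - if `z > 1`), (E) for each block.
Term `η b0`: `|Z| 1(|Z| ≤ 1) ≤ 1`. Terms `η b / ρ b`: integrate out the block `b` by (D) with
`φ ρ = |Z'| 1(|ρ Z'| ≤ 1)` (`b ∈ L`) or `φ ρ = |Z'| / ρ^2 1(|ρ| ≥ |Z'|)` (`b ∈ R`), `∫ φ ≤ 2`. -/
def SFix : Prop := ∀ (β : Type) [Fintype β] [DecidableEq β] (t : ℕ)
  (μ : β → Fin t → Measure ℝ) [∀ b s, IsProbabilityMeasure (μ b s)]
  (A B : ℝ≥0), (∀ b s, μ b s ≤ (B : ℝ≥0∞) • (volume : Measure ℝ)) →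
  (∀ b s, ∫⁻ x, ‖x‖ₑ ∂(μ b s) ≤ A) →
  ∀ (g h : β → Fin t → ℝ) (s0 : β → Fin t), (∀ b, |g b (s0 b)| = 1) → (∀ b, h b (s0 b) = 0) →
    (∀ b s, |g b s| ≤ 1) →
  ∀ (b0 : β) (L R : Finset β), b0 ∉ L → b0 ∉ R → Disjoint L R →
  ∀ (z la θ : ℝ), 0 < z → 0 ≤ θ → θ ≤ 1 / 2 → θ * L.card ≤ 1 / 2 → θ * R.card ≤ 1 / 2 →
    ∫⁻ v, {v : β → Fin t → ℝ | |z * (∏ b ∈ L, ∑ s, v b s * g b s) /
          (∏ b ∈ R, ∑ s, v b s * g b s)| ≤ 1}.indicator
        (fun v => ‖(z * (∏ b ∈ L, ∑ s, v b s * g b s) / (∏ b ∈ R, ∑ s, v b s * g b s)) *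
          (∑ s, v b0 s * g b0 s) *
          (la + (∑ s, v b0 s * h b0 s) / (∑ s, v b0 s * g b0 s) +
            ∑ b ∈ L, (∑ s, v b s * h b s) / (∑ s, v b s * g b s) -
            ∑ b ∈ R, (∑ s, v b s * h b s) / (∑ s, v b s * g b s))‖ₑ) v ∂(PP μ) ≤
      A * (∑ s, ‖h b0 s‖ₑ) +
      t * A * (ENNReal.ofReal (|la| * Real.exp (-(θ * |Real.log z|))) *
          ((1 + t * A) * (1 + 4 * B)) +
        2 * A * B * (∑ b ∈ L, ∑ s, ‖h b s‖ₑ + ∑ b ∈ R, ∑ s, ‖h b s‖ₑ))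

/-- (R) Rice inequality for one coefficient, from (A), (B), (C): the solutions `y` of
`v b s * G v y + R v y = 0` in a region which does not depend on the coefficient `v b s`. Proof:
the count is measurable by (B) (with `K ∩ {v b s * G + R = 0}`, `U`); integrate out the
coefficient by (C); inside it is `v b s = - R / G`, so (A) for `h = - R / G` and `μ b s ≤ B vol`;
then Tonelli. -/
def SRice : Prop := ∀ (β : Type) [Fintype β] [DecidableEq β] (t : ℕ)
  (μ : β → Fin t → Measure ℝ) [∀ b s, IsProbabilityMeasure (μ b s)]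
  (B : ℝ≥0) (b : β) (s : Fin t), μ b s ≤ (B : ℝ≥0∞) • (volume : Measure ℝ) →
  ∀ (K U : Set ((β → Fin t → ℝ) × ℝ)) (G R D : (β → Fin t → ℝ) → ℝ → ℝ),
    IsClosed K → IsOpen U →
    Continuous (Function.uncurry G) → Continuous (Function.uncurry R) →
    Measurable (Function.uncurry D) →
    (∀ v x y, (upd v b s x, y) ∈ K ↔ (v, y) ∈ K) → (∀ v x y, (upd v b s x, y) ∈ U ↔ (v, y) ∈ U) →
    (∀ v x, G (upd v b s x) = G v) → (∀ v x, R (upd v b s x) = R v) →
    (∀ v x, D (upd v b s x) = D v) →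
    (∀ v y, (v, y) ∈ K → (v, y) ∈ U →
      G v y ≠ 0 ∧ HasDerivAt (fun z => -(R v z) / G v z) (D v y) y) →
    ∫⁻ v, (({y : ℝ | (v, y) ∈ K ∧ (v, y) ∈ U ∧ v b s * G v y + R v y = 0}.encard : ℕ∞) : ℝ≥0∞)
        ∂(PP μ) ≤
      B * ∫⁻ y, ∫⁻ v, (K ∩ U).indicator (fun p => ‖D p.1 p.2‖ₑ) (v, y) ∂(PP μ)

/-- (I) Logarithmic derivative of a quotient of products. -/
def SLogD : Prop := ∀ (n : ℕ) (p q : Fin n → ℝ → ℝ) (p' q' : Fin n → ℝ) (u w : ℝ → ℝ)
  (u' w' y : ℝ), (∀ j, HasDerivAt (p j) (p' j) y) → (∀ j, HasDerivAt (q j) (q' j) y) →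
  HasDerivAt u u' y → HasDerivAt w w' y → (∀ j, p j y ≠ 0) → (∀ j, q j y ≠ 0) → u y ≠ 0 →
  w y ≠ 0 →
    HasDerivAt (fun z => u z * (∏ j, p j z) / (w z * ∏ j, q j z))
      (u y * (∏ j, p j y) / (w y * ∏ j, q j y) *
        (u' / u y + ∑ j, p' j / p j y - w' / w y - ∑ j, q' j / q j y)) y

end Pool.Agent.T9h20.TA
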