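import Pool.Agent.T9h20.TA.Spec

/-!
# The smoothed real tau-conjecture with shared factors and powers: two new pieces

`F = ∑ i, f_i * ∏ j, g_j ^ (α i j)`, the factors `g_j` are shared by the products, `f_i` is not.
-/

set_option autoImplicit false

open MeasureTheory Set
open scoped ENNReal NNReal

namespace Pool.Agent.T9h20.TA

/-- `|p| |z| |x|^(p-1)` on the set `|z x^p| ≤ 1`. -/
noncomputable def phP (p : ℤ) (z x : ℝ) : ℝ≥0∞ :=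
  if |z * x ^ p| ≤ 1 then ‖(p : ℝ) * (z * x ^ p / x)‖ₑ else 0

/-- (J) For `p > 0` the set is `|x| ≤ r`, `r = |z|^(-1/p)`, and the integral is
`2 |z| r^p = 2`; for `p < 0` it is `|x| ≥ r` and the same value; `0` for `z = 0` or `p = 0`. -/
def SPhP : Prop := ∀ (p : ℤ) (z : ℝ), ∫⁻ x, phP p z x ≤ 2

/-- (H') The piece (H) with powers: `Z = z ∏_S ρ_b ^ p_b` with integers `p_b`. Proof as (H):
`term_le` of `T9h22/TA/H.lean` with `φ = phP (p b)` and `SPhP`; the term with `la` by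
`|Z| 1(|Z| ≤ 1) ≤ |Z|^(± θ)` and `E |ρ_b|^(± θ p_b)` for each block (if the exponent `ε` is
positive `≤ (t A)^ε`, if it is negative `≤ (1 + 4 B)^(2 |ε|)`; the positive exponents have sum
at most `1 / 2`, and so have the absolute values of the negative ones). -/
def SFixP : Prop := ∀ (β : Type) [Fintype β] [DecidableEq β] (t : ℕ)
  (μ : β → Fin t → Measure ℝ) [∀ b s, IsProbabilityMeasure (μ b s)]
  (A B : ℝ≥0), (∀ b s, μ b s ≤ (B : ℝ≥0∞) • (volume : Measure ℝ)) →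
  (∀ b s, ∫⁻ x, ‖x‖ₑ ∂(μ b s) ≤ A) →
  ∀ (g h : β → Fin t → ℝ) (s0 : β → Fin t), (∀ b, |g b (s0 b)| = 1) → (∀ b, h b (s0 b) = 0) →
    (∀ b s, |g b s| ≤ 1) →
  ∀ (b0 : β) (S : Finset β) (p : β → ℤ), b0 ∉ S →
  ∀ (z la θ : ℝ), 0 < z → 0 ≤ θ → θ ≤ 1 / 2 →
    θ * (∑ b ∈ S, max (p b : ℝ) 0) ≤ 1 / 2 → θ * (∑ b ∈ S, max (-(p b : ℝ)) 0) ≤ 1 / 2 →
    ∫⁻ v, {v : β → Fin t → ℝ | |z * ∏ b ∈ S, (∑ s, v b s * g b s) ^ p b| ≤ 1}.indicator
        (fun v => ‖(z * ∏ b ∈ S, (∑ s, v b s * g b s) ^ p b) * (∑ s, v b0 s * g b0 s) *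
          (la + (∑ s, v b0 s * h b0 s) / (∑ s, v b0 s * g b0 s) +
            ∑ b ∈ S, (p b : ℝ) * ((∑ s, v b s * h b s) / (∑ s, v b s * g b s)))‖ₑ) v ∂(PP μ) ≤
      A * (∑ s, ‖h b0 s‖ₑ) +
      t * A * (ENNReal.ofReal (|la| * Real.exp (-(θ * |Real.log z|))) *
          ((1 + t * A) * (1 + 4 * B)) +
        2 * A * B * (∑ b ∈ S, ∑ s, ‖h b s‖ₑ))

end Pool.Agent.T9h20.TA
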