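import Pool.Agent.T9h20.TA.Spec2

/-!
# The smoothed real tau-conjecture with one deterministic product: one new piece
-/

set_option autoImplicit false

open MeasureTheory Set
open scoped ENNReal NNReal

namespace Pool.Agent.T9h20.TA

/-- (K) The piece (H') without the block `b0`: the same proof, simpler (no factor `ρ b0`, no
term `η b0`). Used for `f g + 1`: the product `1` has no random coefficient of its own. -/
def SFixQ : Prop := ∀ (β : Type) [Fintype β] [DecidableEq β] (t : ℕ)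
  (μ : β → Fin t → Measure ℝ) [∀ b s, IsProbabilityMeasure (μ b s)]
  (A B : ℝ≥0), (∀ b s, μ b s ≤ (B : ℝ≥0∞) • (volume : Measure ℝ)) →
  (∀ b s, ∫⁻ x, ‖x‖ₑ ∂(μ b s) ≤ A) →
  ∀ (g h : β → Fin t → ℝ) (s0 : β → Fin t), (∀ b, |g b (s0 b)| = 1) → (∀ b, h b (s0 b) = 0) →
    (∀ b s, |g b s| ≤ 1) →
  ∀ (S : Finset β) (p : β → ℤ) (z la θ : ℝ), 0 < z → 0 ≤ θ → θ ≤ 1 / 2 →
    θ * (∑ b ∈ S, max (p b : ℝ) 0) ≤ 1 / 2 → θ * (∑ b ∈ S, max (-(p b : ℝ)) 0) ≤ 1 / 2 →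
    ∫⁻ v, {v : β → Fin t → ℝ | |z * ∏ b ∈ S, (∑ s, v b s * g b s) ^ p b| ≤ 1}.indicator
        (fun v => ‖(z * ∏ b ∈ S, (∑ s, v b s * g b s) ^ p b) *
          (la + ∑ b ∈ S, (p b : ℝ) * ((∑ s, v b s * h b s) / (∑ s, v b s * g b s)))‖ₑ) v
          ∂(PP μ) ≤
      ENNReal.ofReal (|la| * Real.exp (-(θ * |Real.log z|))) * ((1 + t * A) * (1 + 4 * B)) +
        2 * A * B * (∑ b ∈ S, ∑ s, ‖h b s‖ₑ)

end Pool.Agent.T9h20.TA
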